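import Pool.Agent.H.MP_090684_an.A

set_option autoImplicit false
open Complex Filter Topology Set Metric
open scoped Real ComplexConjugate

namespace Pool.Agent.H.MP_9159b8_an
open MP_090684_an (flip inv_circ cauchyD lin2)

abbrev B : Set ℂ := ball 0 2
def An : Set ℂ := {t | 1 / 2 < ‖t‖ ∧ ‖t‖ < 2}

lemma Ano : IsOpen An :=
  (isOpen_lt continuous_const continuous_norm).inter (isOpen_lt continuous_norm continuous_const)
lemma AB : An ⊆ B := fun _ h => mem_ball_zero_iff.2 h.2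
lemma An0 {t : ℂ} (h : t ∈ An) : t ≠ 0 := norm_pos_iff.1 (by linarith [h.1])
lemma Ani {t : ℂ} (h : t ∈ An) : t⁻¹ ∈ An := by
  have := norm_pos_iff.2 (An0 h)
  exact ⟨by rw [norm_inv, one_div]; exact inv_strictAnti₀ this h.2,
    by rw [norm_inv]; exact inv_lt_of_inv_lt₀ two_pos (by linarith [h.1])⟩
lemma Ans {q : ℝ} (a : 1 / 2 < q) (b : q < 2) : sphere (0:ℂ) q ⊆ An := fun z hz => by
  rw [mem_sphere_zero_iff_norm] at hz; exact ⟨hz ▸ a, hz ▸ b⟩
lemma B0 : (0:ℂ) ∈ B := mem_ball_self two_pos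

lemma nm {z w : ℂ} {c d : ℝ} (h : ‖z‖ ≤ c) (k : ‖w‖ ≤ d) : ‖z * w‖ ≤ c * d :=
  (norm_mul_le _ _).trans (mul_le_mul h k (norm_nonneg _) ((norm_nonneg _).trans h))

lemma cI_neg (F : ℂ → ℂ) (q : ℝ) : (∮ z in C(0, q), F (-z)) = -∮ z in C(0, q), F z := by
  have h := ((periodic_circleMap 0 q).comp fun z => z * I * F z).intervalIntegral_add_eq π 0
  have k := intervalIntegral.integral_comp_add_right (a := 0) (b := 2 * π)
    ((fun z => z * I * F z) ∘ circleMap 0 q) π
  rw [zero_add, add_comm (2 * π), h, zero_add] at k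
  simp only [circleIntegral, deriv_circleMap, smul_eq_mul]
  refine neg_eq_iff_eq_neg.1 (Eq.trans ?_ k)
  rw [← intervalIntegral.integral_neg]
  refine intervalIntegral.integral_congr fun θ _ => ?_
  simp [circleMap, add_mul, exp_add]

lemma cI_conj (F : ℂ → ℂ) (q : ℝ) :
    conj (∮ z in C(0, q), F z) = -∮ z in C(0, q), conj (F (conj z)) := by
  simp only [circleIntegral, deriv_circleMap, smul_eq_mul]
  conv_rhs => rw [← flip (fun θ => circleMap 0 q θ * I * conj (F (conj (circleMap 0 q θ))))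
    ((periodic_circleMap 0 q).comp fun z => z * I * conj (F (conj z)))]
  rw [← intervalIntegral.integral_neg, intervalIntegral.integral_of_le Real.two_pi_pos.le,
    intervalIntegral.integral_of_le Real.two_pi_pos.le, ← integral_conj]
  congr 1; ext θ
  have : circleMap 0 q (-θ) = conj (circleMap 0 q θ) := by simp [circleMap, ← exp_conj]
  simp [this]

noncomputable def C (q : ℝ) (F : ℂ → ℂ) (τ : ℂ) : ℂ :=
  (2 * π * I : ℂ)⁻¹ • ∮ z in C(0, q), (z - τ)⁻¹ • F z
noncomputable def P (F : ℂ → ℂ) (τ : ℂ) : ℂ :=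
  if ‖τ‖ < 1 then C (4 / 3) F τ else F τ + C (3 / 4) F τ
noncomputable def Iv (F : ℂ → ℂ) (z : ℂ) : ℂ := z⁻¹ * F z⁻¹

lemma Ivd {F : ℂ → ℂ} (h : DifferentiableOn ℂ F An) : DifferentiableOn ℂ (Iv F) An :=
  (differentiableOn_id.inv fun _ => An0).mul (h.comp (differentiableOn_id.inv fun _ => An0)
    fun _ => Ani)

lemma Cinv (F : ℂ → ℂ) {τ : ℂ} (h : τ ≠ 0) : C (3 / 4) F τ = -τ⁻¹ * C (4 / 3) (Iv F) τ⁻¹ := by
  rw [C, C, ← inv_circ _ (3 / 4) (by norm_num), smul_eq_mul, smul_eq_mul, mul_left_comm (-τ⁻¹),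
    ← circleIntegral.integral_const_mul (-τ⁻¹), show (3 / 4 : ℝ)⁻¹ = 4 / 3 by norm_num]
  congr 1
  refine circleIntegral.integral_congr (by norm_num) fun z hz => ?_
  have z0 : z ≠ 0 := ne_of_mem_sphere hz (by norm_num)
  simp only [Iv, smul_eq_mul, show z⁻¹ - τ = -τ * z⁻¹ * (z - τ⁻¹) by field_simp; ring, mul_inv,
    inv_inv, inv_neg]
  field_simp

lemma ci {q : ℝ} {τ : ℂ} (h : q ≠ ‖τ‖) : ContinuousOn (fun z => (z - τ)⁻¹) (sphere (0:ℂ) q) :=
  (continuousOn_id.sub continuousOn_const).inv₀ fun z hz e =>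
    h (by rw [← show z = τ from sub_eq_zero.1 e]; exact (mem_sphere_zero_iff_norm.1 hz).symm)

lemma Can {F : ℂ → ℂ} (h : DifferentiableOn ℂ F An) {s : ℂ} (a : 3 / 4 < ‖s‖) (b : ‖s‖ < 4 / 3) :
    C (4 / 3) F s = F s + C (3 / 4) F s := by
  have D := (differentiableOn_dslope (Ano.mem_nhds
    (show s ∈ An from ⟨by linarith, by linarith⟩))).2 h
  have m : ∀ z : ℂ, 3 / 4 ≤ ‖z‖ → ‖z‖ ≤ 4 / 3 → DifferentiableAt ℂ (dslope F s) z := fun z c d =>
    D.differentiableAt (Ano.mem_nhds ⟨by linarith, by linarith⟩)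
  have A := circleIntegral_eq_of_differentiable_on_annulus_off_countable (c := 0) (r := 3 / 4)
    (R := 4 / 3) (by norm_num) (by norm_num) countable_empty (f := dslope F s) (fun z hz => by
      simp only [Set.mem_sdiff, mem_closedBall_zero_iff, mem_ball_zero_iff, not_lt] at hz
      exact (m z hz.2 hz.1).continuousAt.continuousWithinAt) fun z hz => by
      simp only [Set.mem_sdiff, mem_closedBall_zero_iff, mem_ball_zero_iff, not_le] at hz
      exact m z hz.1.2.le hz.1.1.le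
  have E : ∀ q, 1 / 2 < q → q < 2 → q ≠ ‖s‖ → (∮ z in C(0, q), dslope F s z) =
      1 * (∮ z in C(0, q), (z - s)⁻¹ • F z) + -F s * ∮ z in C(0, q), (z - s)⁻¹ := fun q c d e => by
    refine lin2 (by linarith) _ _ _ _ ((ci e).smul (h.continuousOn.mono (Ans c d))) (ci e)
      fun z hz => ?_
    rw [dslope_of_ne _ fun k => e (by rw [← k]; exact (mem_sphere_zero_iff_norm.1 hz).symm),
      slope_def_field]
    simp only [smul_eq_mul]; ring
  have Z : (∮ z in C(0, 3 / 4), (z - s)⁻¹) = 0 := by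
    have n : ∀ z ∈ closedBall (0:ℂ) (3 / 4), z - s ≠ 0 := fun z hz e => by
      rw [sub_eq_zero.1 e, mem_closedBall_zero_iff] at hz; linarith
    exact circleIntegral_eq_zero_of_differentiable_on_off_countable (by norm_num) countable_empty
      ((continuousOn_id.sub continuousOn_const).inv₀ n) fun z hz =>
      (differentiableAt_id.sub_const s).inv (n z (ball_subset_closedBall hz.1))
  rw [E _ (by norm_num) (by norm_num) b.ne', E _ (by norm_num) (by norm_num) a.ne, Z,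
    circleIntegral.integral_sub_inv_of_mem_ball (mem_ball_zero_iff.2 b)] at A
  have p := two_pi_I_ne_zero
  simp only [C, smul_eq_mul] at A ⊢
  linear_combination (2 * π * I : ℂ)⁻¹ * A + F s * inv_mul_cancel₀ p

lemma Pdec (F : ℂ → ℂ) (h : DifferentiableOn ℂ F An) {t : ℂ} (a : ‖t‖ = 1) :
    F t = P F t + t⁻¹ * P (Iv F) t⁻¹ := by
  have b : ‖t⁻¹‖ = 1 := by simp [a]
  simp only [P, a, b, lt_irrefl, if_false]
  rw [← Can (Ivd h) (by rw [b]; norm_num) (by rw [b]; norm_num),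
    Cinv F (norm_pos_iff.1 (a ▸ one_pos))]
  ring

structure Op (T : (ℂ → ℂ) → ℂ → ℂ) (D E : Set ℂ) (c : ℝ) : Prop where
  d : ∀ f, DifferentiableOn ℂ f D → DifferentiableOn ℂ (T f) E
  l : ∀ f g (δ : ℝ), DifferentiableOn ℂ f D → DifferentiableOn ℂ g D →
    (∀ s ∈ D, ‖f s - g s‖ ≤ δ) → ∀ s ∈ E, ‖T f s - T g s‖ ≤ c * δ
  z : ∀ s, T 0 s = 0
  c : ∀ f, DifferentiableOn ℂ f D → (∀ s ∈ D, conj (f s) = f (conj s)) →
    ∀ s ∈ E, conj (T f s) = T f (conj s)

lemma Cl {f g : ℂ → ℂ} {δ q m : ℝ} (hf : DifferentiableOn ℂ f An) (hg : DifferentiableOn ℂ g An)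
    (h : ∀ s ∈ An, ‖f s - g s‖ ≤ δ) (a : 1 / 2 < q) (b : q < 2) {τ : ℂ} (m0 : 0 < m)
    (e : m ≤ |q - ‖τ‖|) : ‖C q f τ - C q g τ‖ ≤ q * (m⁻¹ * δ) := by
  have n : q ≠ ‖τ‖ := sub_ne_zero.1 (abs_pos.1 (m0.trans_le e))
  rw [C, C, ← smul_sub, ← circleIntegral.integral_sub (f := fun z => (z - τ)⁻¹ • f z)
    (g := fun z => (z - τ)⁻¹ • g z) (((ci n).smul (hf.continuousOn.mono (Ans a b))).circleIntegrable (by linarith))
    (((ci n).smul (hg.continuousOn.mono (Ans a b))).circleIntegrable (by linarith))]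
  refine circleIntegral.norm_two_pi_i_inv_smul_integral_le_of_norm_le_const (by linarith)
    fun z hz => ?_
  simp only [smul_eq_mul, ← mul_sub]
  refine nm ?_ (h z (Ans a b hz))
  rw [norm_inv]
  exact inv_anti₀ m0 (e.trans (mem_sphere_zero_iff_norm.1 hz ▸ abs_norm_sub_norm_le z τ))

lemma Cc {f : ℂ → ℂ} {q : ℝ} (h : ∀ s ∈ An, conj (f s) = f (conj s)) (a : 1 / 2 < q) (b : q < 2)
    (τ : ℂ) : conj (C q f τ) = C q f (conj τ) := by
  rw [C, C, smul_eq_mul, map_mul, cI_conj, circleIntegral.integral_congr (by linarith)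
    (g := fun z => (z - conj τ)⁻¹ • f z) fun z hz => by simp [← h z (Ans a b hz)]]
  simp [map_ofNat]

lemma Cn {f : ℂ → ℂ} {q : ℝ} {σ : ℂ} (h : ∀ s ∈ An, f (-s) = σ * f s) (a : 1 / 2 < q) (b : q < 2)
    (τ : ℂ) : C q f (-τ) = σ * C q f τ := by
  rw [C, C, ← neg_neg (∮ z in C(0, q), (z - -τ)⁻¹ • f z), ← cI_neg,
    circleIntegral.integral_congr (by linarith) (g := fun z => -σ * ((z - τ)⁻¹ • f z))
    fun z hz => by
      simp only [h z (Ans a b hz), smul_eq_mul, show -z - -τ = -(z - τ) by ring, inv_neg]; ring,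
    circleIntegral.integral_const_mul]
  simp only [smul_eq_mul]; ring

lemma Pn {f : ℂ → ℂ} {σ : ℂ} (h : ∀ s ∈ An, f (-s) = σ * f s) :
    ∀ τ ∈ B, P f (-τ) = σ * P f τ := fun τ hτ => by
  simp only [P, norm_neg]
  split_ifs with e
  · exact Cn h (by norm_num) (by norm_num) τ
  · rw [Cn h (by norm_num) (by norm_num) τ, h τ ⟨by linarith, mem_ball_zero_iff.1 hτ⟩]; ring

lemma oP : Op P An B 4 := by
  refine ⟨fun f hf τ hτ => DifferentiableAt.differentiableWithinAt ?_,
    fun f g δ hf hg h τ hτ => ?_, fun s => by simp [P, C, circleIntegral], fun f _ h τ hτ => ?_⟩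
  · have k : ∀ g, DifferentiableOn ℂ g An → ∀ t : ℂ, ‖t‖ < 4 / 3 →
        DifferentiableAt ℂ (C (4 / 3) g) t := fun g hg t ht =>
      (cauchyD g (4 / 3) (by norm_num) (hg.continuousOn.mono (Ans (by norm_num) (by norm_num)))
        ).differentiableAt (isOpen_ball.mem_nhds (mem_ball_zero_iff.2 ht))
    by_cases e : ‖τ‖ < 4 / 3
    · refine (k f hf τ e).congr_of_eventuallyEq ?_
      filter_upwards [(isOpen_lt continuous_norm continuous_const).mem_nhds e] with v hv
      simp only [P]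
      split_ifs with b
      · rfl
      · exact (Can hf (by linarith) hv).symm
    · have m : τ ∈ An := ⟨by linarith, mem_ball_zero_iff.1 hτ⟩
      have i : DifferentiableAt ℂ (fun t : ℂ => t⁻¹) τ := differentiableAt_inv (An0 m)
      refine ((hf.differentiableAt (Ano.mem_nhds m)).add (i.neg.mul ((k _ (Ivd hf) _ (by
        rw [norm_inv]; exact inv_lt_of_inv_lt₀ (by norm_num) (by linarith))).comp τ i))
        ).congr_of_eventuallyEq ?_
      filter_upwards [(isOpen_lt continuous_const continuous_norm).mem_nhds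
        (show 1 < ‖τ‖ by linarith)] with v hv
      simp only [P, if_neg (not_lt.2 hv.le), Cinv f (norm_pos_iff.1 (one_pos.trans hv))]
      rfl
  · simp only [P]
    split_ifs with e
    · exact (Cl (m := 1 / 3) hf hg h (by norm_num) (by norm_num) (by norm_num)
        (le_abs.2 (Or.inl (by linarith)))).trans (le_of_eq (by ring))
    · rw [add_sub_add_comm]
      exact (norm_add_le_of_le (h τ ⟨by linarith, mem_ball_zero_iff.1 hτ⟩) (Cl (m := 1 / 4) hf hg h
        (by norm_num) (by norm_num) (by norm_num) (le_abs.2 (Or.inr (by linarith))))).trans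
        (le_of_eq (by ring))
  · simp only [P, norm_conj]
    split_ifs with e
    · exact Cc h (by norm_num) (by norm_num) τ
    · rw [map_add, Cc h (by norm_num) (by norm_num) τ, h τ ⟨by linarith, mem_ball_zero_iff.1 hτ⟩]

noncomputable def Ds (f : ℂ → ℂ) : ℂ → ℂ := dslope f 0

lemma Dse (f : ℂ → ℂ) (s : ℂ) : f s = f 0 + s * Ds f s := by
  have := sub_smul_dslope f 0 s
  rw [sub_zero, smul_eq_mul] at this
  rw [Ds, this]; ring

lemma nB : B ∈ 𝓝 (0:ℂ) := isOpen_ball.mem_nhds B0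

lemma oD : Op Ds B B 1 := by
  refine ⟨fun f hf => (differentiableOn_dslope nB).2 hf, fun f g δ hf hg h s hs => ?_,
    fun s => ?_, fun f _ h s hs => ?_⟩
  · have e : Ds f s - Ds g s = dslope (f - g) 0 s := by
      rcases eq_or_ne s 0 with rfl | n
      · simp [Ds, deriv_sub (hf.differentiableAt nB) (hg.differentiableAt nB)]
      · simp only [Ds, dslope_of_ne _ n, slope_def_field, Pi.sub_apply]; ring
    rw [e]
    refine (norm_dslope_le_div_of_mapsTo_ball (R₂ := 2 * δ) (hf.sub hg) (fun z hz => ?_) hs).trans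
      (le_of_eq (by ring))
    rw [mem_closedBall_iff_norm]
    exact (norm_sub_le_of_le (h z hz) (h 0 B0)).trans (le_of_eq (by ring))
  · rcases eq_or_ne s 0 with rfl | n
    · simp [Ds]
    · simp [Ds, dslope_of_ne _ n, slope_def_field]
  · rcases eq_or_ne s 0 with rfl | n
    · have : conj ∘ f ∘ conj =ᶠ[𝓝 0] f := by
        filter_upwards [nB] with v hv
        simp [← h v hv]
      have := this.deriv_eq
      simpa [Ds] using this
    · simp [Ds, dslope_of_ne _ n, dslope_of_ne _ ((map_ne_zero conj).2 n), slope_def_field,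
        h s hs, h 0 B0]

lemma Dn {f : ℂ → ℂ} {σ : ℂ} (h : ∀ s ∈ B, f (-s) = σ * f s) :
    ∀ s ∈ B, Ds f (-s) = -σ * Ds f s := fun s hs => by
  rcases eq_or_ne s 0 with rfl | n
  · have : (fun v => f (-v)) =ᶠ[𝓝 0] fun v => σ * f v := by
      filter_upwards [nB] with v hv using h v hv
    have := this.deriv_eq
    simp only [deriv_comp_neg, deriv_const_mul_field', neg_zero] at this
    simp only [Ds, neg_zero, dslope_same]
    linear_combination -this
  · have := h 0 B0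
    rw [neg_zero] at this
    simp only [Ds, dslope_of_ne _ n, dslope_of_ne _ (neg_ne_zero.2 n), slope_def_field, h s hs,
      sub_zero, div_neg]
    linear_combination s⁻¹ * this

noncomputable def J (k : ℕ) (h : ℂ → ℂ) (τ : ℂ) : ℂ := ∫ v in (0:ℝ)..1, (v:ℂ) ^ k * h (v * τ)

lemma vB {τ : ℂ} (hτ : τ ∈ B) {v : ℝ} (hv : v ∈ uIcc (0:ℝ) 1) : (v:ℂ) * τ ∈ B := by
  rw [uIcc_of_le zero_le_one] at hv
  rw [mem_ball_zero_iff] at hτ ⊢
  rw [norm_mul, norm_real, Real.norm_of_nonneg hv.1]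
  nlinarith [hv.1, hv.2, norm_nonneg τ]

lemma Jc (k : ℕ) {h : ℂ → ℂ} (hh : DifferentiableOn ℂ h B) {τ : ℂ} (hτ : τ ∈ B) :
    ContinuousOn (fun v : ℝ => (v:ℂ) ^ k * h (v * τ)) (uIcc 0 1) :=
  (Continuous.continuousOn (by fun_prop)).mul (hh.continuousOn.comp
    (Continuous.continuousOn (by fun_prop)) fun _ => vB hτ)

lemma Jd (k : ℕ) {h : ℂ → ℂ} (hh : DifferentiableOn ℂ h B) {τ : ℂ} (hτ : τ ∈ B) :
    HasDerivAt (fun τ => τ ^ (k + 1) * J k h τ) (τ ^ k * h τ) τ := by
  obtain ⟨Ψ, hΨ⟩ := ((differentiableOn_id.pow k).mul hh).isExactOn_ball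
  refine ((hΨ τ hτ).sub_const (Ψ 0)).congr_of_eventuallyEq ?_
  filter_upwards [isOpen_ball.mem_nhds hτ] with t ht
  have := intervalIntegral.integral_eq_sub_of_hasDerivAt (f := fun v : ℝ => Ψ (v * t))
    (f' := fun v : ℝ => t ^ (k + 1) * ((v:ℂ) ^ k * h (v * t))) (fun v hv =>
    ((hΨ _ (vB ht hv)).comp (v:ℂ) (hasDerivAt_mul_const t)).comp_ofReal.congr_deriv
      (show (v * t) ^ k * h (v * t) * t = t ^ (k + 1) * ((v:ℂ) ^ k * h (v * t)) by ring)) ((continuousOn_const.mul (Jc k hh ht)).intervalIntegrable)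
  simpa [J] using this

lemma oJ (k : ℕ) : Op (J k) B B (1 / (k + 1)) := by
  have L : ∀ f g (δ : ℝ) (S : Set ℂ), DifferentiableOn ℂ f B → DifferentiableOn ℂ g B →
      ∀ s ∈ B, ∀ t ∈ B, (∀ v ∈ uIcc (0:ℝ) 1, ‖f (v * s) - g (v * t)‖ ≤ δ) →
      ‖J k f s - J k g t‖ ≤ 1 / (k + 1) * δ := fun f g δ _ hf hg s hs t ht h => by
    rw [J, J, ← intervalIntegral.integral_sub (Jc k hf hs).intervalIntegrable
      (Jc k hg ht).intervalIntegrable]
    refine (intervalIntegral.norm_integral_le_of_norm_le zero_le_one (g := fun v => v ^ k * δ)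
      (Eventually.of_forall fun v hv => ?_) (Continuous.intervalIntegrable (by fun_prop) _ _)).trans
      (by simp)
    rw [← mul_sub]
    exact nm (by simp [abs_of_pos hv.1]) (h v (mem_uIcc_of_le hv.1.le hv.2))
  refine ⟨fun f hf => (differentiableOn_compl_singleton_and_continuousAt_iff nB).1
    ⟨fun τ hτ => ?_, ?_⟩, fun f g δ hf hg h s hs => L f g δ B hf hg s hs s hs
    fun v hv => h _ (vB hs hv), fun s => by simp [J], fun f _ h s hs => ?_⟩
  · have n : τ ≠ 0 := hτ.2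
    refine ((((differentiableAt_id.pow (k + 1)).inv (pow_ne_zero _ n)).mul
      (Jd k hf hτ.1).differentiableAt).congr_of_eventuallyEq ?_).differentiableWithinAt
    filter_upwards [isOpen_ne.mem_nhds n] with v hv
    simp [hv]
  · refine Metric.continuousAt_iff.2 fun ε ε0 => ?_
    obtain ⟨η, η0, hη⟩ := Metric.continuousAt_iff.1 (hf.differentiableAt nB).continuousAt (ε / 2)
      (by linarith)
    refine ⟨min η 2, lt_min η0 two_pos, fun s hs => ?_⟩
    rw [dist_eq_norm]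
    refine (L f f (ε / 2) B hf hf s (hs.trans_le (min_le_right _ _)) 0 B0 fun v hv => ?_).trans_lt
      (by nlinarith [(div_le_one (k.cast_add_one_pos (α := ℝ))).2 (le_add_of_nonneg_left k.cast_nonneg)])
    rw [mul_zero, ← dist_eq_norm]
    rw [uIcc_of_le zero_le_one] at hv
    refine (hη ?_).le
    have := hs.trans_le (min_le_left _ _)
    rw [dist_zero_right] at this ⊢
    rw [norm_mul, norm_real, Real.norm_of_nonneg hv.1]
    nlinarith [hv.1, hv.2, norm_nonneg s]
  · rw [J, J, intervalIntegral.integral_of_le zero_le_one,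
      intervalIntegral.integral_of_le zero_le_one, ← integral_conj]
    refine MeasureTheory.setIntegral_congr_fun measurableSet_Ioc fun v hv => ?_
    simp [h _ (vB hs (mem_uIcc_of_le hv.1.le hv.2))]

lemma Jn (k : ℕ) {f : ℂ → ℂ} (h : ∀ s ∈ B, f (-s) = f s) : ∀ s ∈ B, J k f (-s) = J k f s :=
  fun s hs => intervalIntegral.integral_congr fun v hv => by simp [h _ (vB hs hv)]

lemma oI : Op (fun f z => f z⁻¹) An An 1 :=
  ⟨fun _ h => h.comp (differentiableOn_id.inv fun _ => An0) fun _ => Ani,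
    fun _ _ _ _ _ h s hs => by simpa using h _ (Ani hs), fun _ => rfl,
    fun _ _ h s hs => by simp [h _ (Ani hs)]⟩

lemma oN : Op (fun f z => f (-z)) An An 1 :=
  have n : ∀ s ∈ An, -s ∈ An := fun s hs => by simpa [An] using hs
  ⟨fun _ h => h.comp differentiableOn_id.neg n, fun _ _ _ _ _ h s hs => by simpa using h _ (n s hs),
    fun _ => rfl, fun _ _ h s hs => by simp [h _ (n s hs)]⟩

lemma o0 (E : Set ℂ) : Op (fun f _ => f 0) B E 1 :=
  ⟨fun _ _ => differentiableOn_const _, fun _ _ _ _ _ h _ _ => by simpa using h 0 B0,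
    fun _ => rfl, fun _ _ h _ _ => by simpa using h 0 B0⟩

lemma oR : Op id B An 1 :=
  ⟨fun _ h => h.mono AB, fun _ _ _ _ _ h s hs => by simpa using h s (AB hs),
    fun _ => rfl, fun _ _ h s hs => h s (AB hs)⟩

lemma Rt {g : ℂ} (h : ‖g‖ < 1) : sqrt (1 + g) ^ 2 = 1 + g ∧ ‖sqrt (1 + g) - 1‖ ≤ ‖g‖ ∧
    conj (sqrt (1 + g)) = sqrt (1 + conj g) ∧ DifferentiableAt ℂ sqrt (1 + g) := by
  have e : sqrt (1 + g) ^ 2 = 1 + g := cpow_ofNat_inv_pow _ 2
  have s := mem_slitPlane_of_norm_lt_one h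
  refine ⟨e, ?_, ?_, differentiableAt_sqrt s⟩
  · have r : 0 ≤ (sqrt (1 + g)).re := by rw [sqrt, cpow_inv_two_re]; exact Real.sqrt_nonneg _
    have := re_le_norm (sqrt (1 + g) + 1)
    rw [add_re, one_re] at this
    rw [show g = (sqrt (1 + g) - 1) * (sqrt (1 + g) + 1) by linear_combination -e, norm_mul,
      show 1 + (sqrt (1 + g) - 1) * (sqrt (1 + g) + 1) = 1 + g by linear_combination e]
    exact le_mul_of_one_le_right (norm_nonneg _) (by linarith)
  · have := conj_cpow (1 + g) 2⁻¹ (slitPlane_arg_ne_pi s)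
    simpa [sqrt, map_ofNat] using this.symm

end Pool.Agent.H.MP_9159b8_an
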