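import Pool.Agent.H.MP_9159b8_an.A

set_option autoImplicit false
open Complex Filter Topology Set Metric
open scoped Real ComplexConjugate

namespace Pool.Agent.H.MP_9159b8_an

abbrev X := Fin 6 → ℂ → ℂ

def Ad (x : X) : Prop := ∀ i, DifferentiableOn ℂ (x i) B ∧ ∀ s ∈ B, ‖x i s‖ ≤ 1 ∧
  conj (x i s) = x i (conj s) ∧ (i = 2 ∨ i = 3 → x i (-s) = x i s)

def Nr (x y : X) (δ : ℝ) : Prop := ∀ i, ∀ s ∈ B, ‖x i s - y i s‖ ≤ δ

def Gd (D : Set ℂ) (F : X → ℂ → ℂ) (M K : ℝ) : Prop :=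
  ∀ x, Ad x → DifferentiableOn ℂ (F x) D ∧ (∀ s ∈ D, ‖F x s‖ ≤ M ∧ conj (F x s) = F x (conj s)) ∧
    ∀ y δ, Ad y → Nr x y δ → ∀ s ∈ D, ‖F x s - F y s‖ ≤ K * δ

lemma N0 {x y : X} {δ : ℝ} (h : Nr x y δ) : 0 ≤ δ := (norm_nonneg _).trans (h 0 0 B0)

variable {D E : Set ℂ} {F G : X → ℂ → ℂ} {M K M' K' c : ℝ}

lemma Gd.op {T : (ℂ → ℂ) → ℂ → ℂ} (o : Op T D E c) (h : Gd D F M K) :
    Gd E (fun x => T (F x)) (c * M) (c * K) := fun x hx =>
  ⟨o.d _ (h x hx).1, fun s hs => ⟨by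
    simpa [o.z] using o.l _ 0 M (h x hx).1 (differentiableOn_const 0)
      (fun t ht => by simpa using ((h x hx).2.1 t ht).1) s hs,
    o.c _ (h x hx).1 (fun t ht => ((h x hx).2.1 t ht).2) s hs⟩, fun y δ hy n s hs => by
    rw [mul_assoc]
    exact o.l _ _ _ (h x hx).1 (h y hy).1 ((h x hx).2.2 y δ hy n) s hs⟩

lemma Gd.mono (h : Gd D F M K) (a : M ≤ M') (b : K ≤ K') : Gd D F M' K' := fun x hx =>
  ⟨(h x hx).1, fun s hs => ⟨((h x hx).2.1 s hs).1.trans a, ((h x hx).2.1 s hs).2⟩,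
    fun y δ hy n s hs => ((h x hx).2.2 y δ hy n s hs).trans (mul_le_mul_of_nonneg_right b (N0 n))⟩

lemma gx (i : Fin 6) : Gd B (fun x => x i) 1 1 := fun _ hx =>
  ⟨(hx i).1, fun s hs => ⟨((hx i).2 s hs).1, ((hx i).2 s hs).2.1⟩,
    fun _ _ _ n s hs => by simpa using n i s hs⟩

lemma gk (r : ℝ) : Gd D (fun _ _ => (r : ℂ)) |r| 0 := fun _ _ =>
  ⟨differentiableOn_const _, fun _ _ => by simp, fun _ _ _ _ _ _ => by simp⟩

lemma gi : Gd B (fun _ s => s) 2 0 := fun _ _ =>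
  ⟨differentiableOn_id, fun _ hs => ⟨(mem_ball_zero_iff.1 hs).le, rfl⟩, fun _ _ _ _ _ _ => by simp⟩

lemma Gd.add (h : Gd D F M K) (k : Gd D G M' K') :
    Gd D (fun x s => F x s + G x s) (M + M') (K + K') := fun x hx =>
  ⟨(h x hx).1.add (k x hx).1, fun s hs => ⟨norm_add_le_of_le ((h x hx).2.1 s hs).1
    ((k x hx).2.1 s hs).1, by simp [((h x hx).2.1 s hs).2, ((k x hx).2.1 s hs).2]⟩,
    fun y δ hy n s hs => by
    rw [add_sub_add_comm, add_mul]
    exact norm_add_le_of_le ((h x hx).2.2 y δ hy n s hs) ((k x hx).2.2 y δ hy n s hs)⟩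

lemma Gd.mul (h : Gd D F M K) (k : Gd D G M' K') :
    Gd D (fun x s => F x s * G x s) (M * M') (M * K' + K * M') := fun x hx =>
  ⟨(h x hx).1.mul (k x hx).1, fun s hs => ⟨nm ((h x hx).2.1 s hs).1
    ((k x hx).2.1 s hs).1, by simp [((h x hx).2.1 s hs).2, ((k x hx).2.1 s hs).2]⟩,
    fun y δ hy n s hs => by
    rw [show F x s * G x s - F y s * G y s = F x s * (G x s - G y s) + (F x s - F y s) * G y s by
      ring]
    exact (norm_add_le_of_le (nm ((h x hx).2.1 s hs).1 ((k x hx).2.2 y δ hy n s hs))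
      (nm ((h x hx).2.2 y δ hy n s hs) ((k y hy).2.1 s hs).1)).trans (le_of_eq (by ring))⟩

lemma Gd.sm (r : ℝ) (h : Gd D F M K) : Gd D (fun x s => r * F x s) (|r| * M) (|r| * K) :=
  ((gk r).mul h).mono le_rfl (by simp)

lemma Gd.inv (h : Gd D F M K) (a : M ≤ 1 / 2) :
    Gd D (fun x s => (1 + F x s)⁻¹) (1 - M)⁻¹ (4 * K) := by
  have b : ∀ x, Ad x → ∀ s ∈ D, 1 - M ≤ ‖1 + F x s‖ := fun x hx s hs => by
    have := norm_sub_le (1 + F x s) (F x s)
    rw [add_sub_cancel_right, norm_one] at this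
    linarith [((h x hx).2.1 s hs).1]
  have n : ∀ x, Ad x → ∀ s ∈ D, 1 + F x s ≠ 0 := fun x hx s hs =>
    norm_pos_iff.1 (by linarith [b x hx s hs])
  have e : ∀ x, Ad x → ∀ s ∈ D, ‖(1 + F x s)⁻¹‖ ≤ 2 := fun x hx s hs => by
    rw [norm_inv]; exact inv_le_of_inv_le₀ two_pos (by linarith [b x hx s hs])
  refine fun x hx => ⟨((h x hx).1.const_add 1).inv (n x hx), fun s hs => ⟨?_,
    by simp [((h x hx).2.1 s hs).2]⟩, fun y δ hy m s hs => ?_⟩
  · rw [norm_inv]; exact inv_anti₀ (by linarith) (b x hx s hs)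
  · have := n x hx s hs
    have := n y hy s hs
    rw [show (1 + F x s)⁻¹ - (1 + F y s)⁻¹ = -((1 + F x s)⁻¹ * (1 + F y s)⁻¹ * (F x s - F y s)) by
      field_simp; ring, norm_neg]
    exact (nm (nm (e x hx s hs) (e y hy s hs)) ((h x hx).2.2 y δ hy m s hs)).trans
      (le_of_eq (by ring))

lemma Gd.rt (h : Gd D F M K) (a : M ≤ 1 / 2) :
    Gd D (fun x s => sqrt (1 + F x s) - 1) M K := by
  have b := fun x hx s hs => Rt (g := F x s) (by linarith [((h x hx).2.1 s hs).1])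
  refine fun x hx => ⟨fun s hs => (((b x hx s hs).2.2.2.comp_differentiableWithinAt s
    (((h x hx).1 s hs).const_add 1))).sub_const 1, fun s hs =>
    ⟨(b x hx s hs).2.1.trans ((h x hx).2.1 s hs).1, by
      simp [(b x hx s hs).2.2.1, ((h x hx).2.1 s hs).2]⟩, fun y δ hy m s hs => ?_⟩
  refine le_trans ?_ ((h x hx).2.2 y δ hy m s hs)
  rw [show F x s - F y s = (sqrt (1 + F x s) - 1 - (sqrt (1 + F y s) - 1)) *
    (2 + ((sqrt (1 + F x s) - 1) + (sqrt (1 + F y s) - 1))) by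
      linear_combination (b y hy s hs).1 - (b x hx s hs).1, norm_mul]
  refine le_mul_of_one_le_right (norm_nonneg _) ?_
  have u := norm_add_le_of_le ((b x hx s hs).2.1.trans ((h x hx).2.1 s hs).1)
    ((b y hy s hs).2.1.trans ((h y hy).2.1 s hs).1)
  have := norm_sub_le (2 + ((sqrt (1 + F x s) - 1) + (sqrt (1 + F y s) - 1)))
    ((sqrt (1 + F x s) - 1) + (sqrt (1 + F y s) - 1))
  rw [add_sub_cancel_right, Complex.norm_two] at this
  linarith

lemma lip {f : ℂ → ℂ} (h : DifferentiableOn ℂ f B) (b : ∀ s ∈ B, ‖f s‖ ≤ M) {s t : ℂ}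
    (hs : ‖s‖ ≤ 1) (ht : ‖t‖ ≤ 1) : ‖f s - f t‖ ≤ 2 * M * ‖s - t‖ := by
  have m : ∀ z ∈ closedBall (0:ℂ) 1, closedBall z (1 / 2) ⊆ B := fun z hz =>
    closedBall_subset_ball' (by linarith [mem_closedBall.1 hz])
  refine (convex_closedBall (0:ℂ) 1).norm_image_sub_le_of_norm_deriv_le (fun z hz =>
    h.differentiableAt (isOpen_ball.mem_nhds (m z hz (mem_closedBall_self (by norm_num)))))
    (fun z hz => (norm_deriv_le_of_forall_mem_sphere_norm_le (R := 1 / 2) (by norm_num)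
      (h.diffContOnCl_ball (m z hz)) fun w hw => b w (m z hz (sphere_subset_closedBall hw))).trans
      (le_of_eq (by ring))) (mem_closedBall_zero_iff.2 ht) (mem_closedBall_zero_iff.2 hs)

lemma Gd.comp (h : Gd B F M K) (k : Gd D G M' K') (a : M' ≤ 1) :
    Gd D (fun x s => F x (G x s)) M (K + 2 * M * K') := by
  have b : ∀ x, Ad x → ∀ s ∈ D, ‖G x s‖ ≤ 1 := fun x hx s hs => ((k x hx).2.1 s hs).1.trans a
  have m : ∀ x, Ad x → ∀ s ∈ D, G x s ∈ B := fun x hx s hs =>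
    mem_ball_zero_iff.2 (by linarith [b x hx s hs])
  refine fun x hx => ⟨(h x hx).1.comp (k x hx).1 (m x hx), fun s hs =>
    ⟨((h x hx).2.1 _ (m x hx s hs)).1, by
      rw [((h x hx).2.1 _ (m x hx s hs)).2, ((k x hx).2.1 s hs).2]⟩, fun y δ hy n s hs => ?_⟩
  have M0 : 0 ≤ M := (norm_nonneg _).trans ((h x hx).2.1 0 B0).1
  refine (norm_sub_le_norm_sub_add_norm_sub _ (F y (G x s)) _).trans ((add_le_add
    ((h x hx).2.2 y δ hy n _ (m x hx s hs)) ((lip (h y hy).1 (fun t ht => ((h y hy).2.1 t ht).1)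
    (b x hx s hs) (b y hy s hs)).trans (mul_le_mul_of_nonneg_left ((k x hx).2.2 y δ hy n s hs)
    (by positivity)))).trans (le_of_eq (by ring)))

lemma fix (T : X → X) {q : ℝ} (q0 : 0 ≤ q) (q1 : q < 1) (h : ∀ i, Gd B (fun x => T x i) 1 q)
    (ev : ∀ x, Ad x → ∀ i, i = 2 ∨ i = 3 → ∀ s ∈ B, T x i (-s) = T x i s) :
    ∃ x, Ad x ∧ ∀ i, ∀ s ∈ B, T x i s = x i s := by
  have A : ∀ x, Ad x → Ad (T x) := fun x hx i => ⟨(h i x hx).1, fun s hs =>
    ⟨((h i x hx).2.1 s hs).1, ((h i x hx).2.1 s hs).2, fun e => ev x hx i e s hs⟩⟩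
  set u : ℕ → X := fun n => T^[n] 0
  have us : ∀ n, u (n + 1) = T (u n) := fun n => Function.iterate_succ_apply' _ _ _
  have uA : ∀ n, Ad (u n) := fun n => by
    induction n with
    | zero => exact fun i => ⟨differentiableOn_const 0, fun s _ => by simp [u]⟩
    | succ n ih => exact us n ▸ A _ ih
  have uN : ∀ n, Nr (u n) (u (n + 1)) (2 * q ^ n) := fun n => by
    induction n with
    | zero => exact fun i s hs => (norm_sub_le_of_le ((uA 0 i).2 s hs).1 ((uA 1 i).2 s hs).1).trans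
                (by norm_num)
    | succ n ih =>
      intro i s hs
      rw [us (n + 1)]
      nth_rw 1 [us n]
      exact ((h i _ (uA n)).2.2 _ _ (uA _) ih s hs).trans (le_of_eq (by ring))
  set y : X := fun i s => limUnder atTop fun n => u n i s
  have d : ∀ i, ∀ s ∈ B, ∀ n, dist (u n i s) (u (n + 1) i s) ≤ 2 * q ^ n := fun i s hs n => by
    rw [dist_eq_norm]; exact uN n i s hs
  have t : ∀ i, ∀ s ∈ B, Tendsto (fun n => u n i s) atTop (𝓝 (y i s)) := fun i s hs =>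
    (cauchySeq_of_le_geometric q 2 q1 (d i s hs)).tendsto_limUnder
  have e : ∀ n, Nr (u n) y (2 * q ^ n / (1 - q)) := fun n i s hs => by
    rw [← dist_eq_norm]
    exact dist_le_of_le_geometric_of_tendsto q 2 q1 (d i s hs) (t i s hs) n
  have z : Tendsto (fun n => 2 * q ^ n / (1 - q)) atTop (𝓝 0) := by
    simpa using ((tendsto_pow_atTop_nhds_zero_of_lt_one q0 q1).const_mul 2).div_const (1 - q)
  have yA : Ad y := fun i => ⟨(TendstoUniformlyOn.tendstoLocallyUniformlyOn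
    (Metric.tendstoUniformlyOn_iff.2 fun ε ε0 => by
      filter_upwards [z.eventually (gt_mem_nhds ε0)] with n hn s hs
      rw [dist_comm, dist_eq_norm]
      exact (e n i s hs).trans_lt hn)).differentiableOn
    (Eventually.of_forall fun n => (uA n i).1) isOpen_ball, fun s hs =>
    ⟨le_of_tendsto' (t i s hs).norm fun n => ((uA n i).2 s hs).1,
      tendsto_nhds_unique ((continuous_conj.tendsto _).comp (t i s hs))
        ((t i (conj s) (by simpa using hs)).congr fun n => ((uA n i).2 s hs).2.1.symm),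
      fun k => tendsto_nhds_unique (t i (-s) (by simpa using hs))
        ((t i s hs).congr fun n => (((uA n i).2 s hs).2.2 k).symm)⟩⟩
  refine ⟨y, yA, fun i s hs => tendsto_nhds_unique (tendsto_iff_norm_sub_tendsto_zero.2
    (squeeze_zero (fun _ => norm_nonneg _) (fun n => ?_) (by simpa using z.const_mul q)))
    ((t i s hs).comp (tendsto_add_atTop_nat 1))⟩
  simp only [Function.comp, us]
  exact (h i _ (uA n)).2.2 _ _ yA (e n) s hs

end Pool.Agent.H.MP_9159b8_an
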