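import Pool.Agent.H.MP_9159b8_an.B

set_option autoImplicit false
open Complex Filter Topology Set Metric
open scoped Real ComplexConjugate

namespace Pool.Agent.H.MP_9159b8_an

noncomputable def ρ : ℝ := 1 / 10 ^ 8
noncomputable def κ : ℝ := 1 / 10 ^ 12
noncomputable def θ : ℝ := 1 / 10 ^ 4

variable {D : Set ℂ} {F G : X → ℂ → ℂ} {M K M' K' : ℝ}

lemma Gd.sub (h : Gd D F M K) (k : Gd D G M' K') :
    Gd D (fun x s => F x s - G x s) (M + M') (K + K') := by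
  simpa [sub_eq_add_neg] using h.add (k.sm (-1))

lemma ga : Gd An (fun _ s => s) 2 0 := by simpa using gi.op oR
lemma gb : Gd An (fun _ s => s⁻¹) 2 0 := by simpa using ga.op oI
lemma g0 (i : Fin 6) : Gd D (fun x _ => x i 0) 1 1 := by simpa using (gx i).op (o0 D)
lemma gJ (k : ℕ) (i : Fin 6) : Gd B (fun x => J k (x i)) 1 1 :=
  have : (1:ℝ) / (k + 1) * 1 ≤ 1 := by
    rw [mul_one]; exact (div_le_one k.cast_add_one_pos).2 (le_add_of_nonneg_left k.cast_nonneg)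
  ((gx i).op (oJ k)).mono this this
lemma Gd.r (h : Gd B F M K) : Gd An F M K := by simpa using h.op oR
lemma Gd.i (h : Gd An F M K) : Gd An (fun x s => F x s⁻¹) M K := by simpa using h.op oI
lemma Gd.n (h : Gd An F M K) : Gd An (fun x s => F x (-s)) M K := by simpa using h.op oN
lemma Gd.p (h : Gd An F M K) : Gd B (fun x => P (F x)) (4 * M) (4 * K) := h.op oP
lemma Gd.v (h : Gd An F M K) : Gd B (fun x => P (Iv (F x))) (8 * M) (8 * K) :=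
  (gb.mul h.i).p.mono (le_of_eq (by ring)) (le_of_eq (by ring))
lemma Gd.d (h : Gd B F M K) : Gd B (fun x => Ds (F x)) M K := by simpa using h.op oD
lemma Gd.z (h : Gd B F M K) : Gd D (fun x _ => F x 0) M K := by simpa using h.op (o0 D)

variable (x : X)
noncomputable def μ : ℂ := (2:ℝ) + θ * x 4 0
noncomputable def ε : ℂ := ρ * ((1 / 2 : ℝ) + θ * x 5 0)
noncomputable def ω : ℂ := (1 / 2 : ℝ) * x 4 0 + (2:ℝ) * x 5 0 + θ * (x 4 0 * x 5 0)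
noncomputable def wh (t : ℂ) : ℂ := (1:ℝ) + ρ * t
noncomputable def zh (t : ℂ) : ℂ := ε x * wh t
noncomputable def ih (t : ℂ) : ℂ := (1 / 2 : ℝ) * (1 + (ρ / 2 : ℝ) * t)⁻¹
noncomputable def vh (t : ℂ) : ℂ := (-ρ : ℝ) * ih t
noncomputable def gh (t : ℂ) : ℂ :=
  κ * (zh x t * zh x t * x 2 (zh x t) + vh t * vh t * x 0 (vh t))
noncomputable def qh (t : ℂ) : ℂ := sqrt (1 + (gh x t + κ * (t⁻¹ * t⁻¹ * x 0 t⁻¹))) - 1
noncomputable def ph (t : ℂ) : ℂ := ρ * t + κ * (wh t * (zh x t * zh x t * J 2 (x 2) (zh x t)) +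
  ρ * (vh t * J 0 (x 0) (vh t) - t⁻¹ * J 0 (x 0) t⁻¹))
noncomputable def Ft (t : ℂ) : ℂ := ρ * (t * (qh x t * ((1:ℝ) + ph x t⁻¹) + ph x t⁻¹)) -
  ρ * (t * (κ * (wh t * x 3 (zh x t) + x 1 (vh t) * ih t) + μ x * ((1 / 2 : ℝ) * (vh t * t)))) +
  μ x * ((1 / 2 : ℝ) * (gh x t⁻¹ - qh x t⁻¹ * qh x t⁻¹)) +
  (θ / 2 * κ : ℝ) * (x 4 0 * (t * t * x 0 t))
noncomputable def u1 (s : ℂ) : ℂ := ε x * s⁻¹ * (1 + (-1:ℝ) * (ε x * s⁻¹))⁻¹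
noncomputable def t1 (s : ℂ) : ℂ := ρ * u1 x s
noncomputable def go (s : ℂ) : ℂ :=
  κ * (t1 x s * t1 x s * x 0 (t1 x s) + t1 x (-s) * t1 x (-s) * x 0 (t1 x (-s)))
noncomputable def qo (s : ℂ) : ℂ := sqrt (1 + (go x s + κ * (s * s * x 2 s))) - 1
noncomputable def po (s : ℂ) : ℂ := (κ * ρ : ℝ) * (ε x * s⁻¹ *
  (t1 x (-s) * J 0 (x 0) (t1 x (-s)) - t1 x s * J 0 (x 0) (t1 x s)))
noncomputable def s1 (s : ℂ) : ℂ := (μ x + κ * x 1 (t1 x s)) * u1 x s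
noncomputable def Gt (s : ℂ) : ℂ := qo x s * (po x s⁻¹ + κ * (s⁻¹ * s⁻¹ * J 2 (x 2) s⁻¹)) +
  (1 / 2 : ℝ) * (go x s - qo x s * qo x s) + po x s⁻¹ - ε x * s * (s1 x s - s1 x (-s)) -
  ((1:ℝ) + θ * ω x) * ((1 / 2 : ℝ) * (go x s⁻¹ - qo x s⁻¹ * qo x s⁻¹)) -
  (θ / 2 * κ : ℝ) * (ω x * (s⁻¹ * s⁻¹ * x 2 s⁻¹))
noncomputable def T : X := ![fun s => (-κ⁻¹ : ℝ) * Ds (Ds (P (Ft x))) s,
  fun s => (κ⁻¹ : ℝ) * (P (Ft x) 0 + s * P (Iv (Ft x)) s),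
  fun s => (2:ℝ) * J 2 (x 2) s + (2 * κ⁻¹ : ℝ) * Ds (P (Iv (Gt x))) s,
  fun s => (1 / 2 : ℝ) * x 2 s + (κ⁻¹ : ℝ) * Ds (Ds (P (Gt x))) s,
  fun _ => (2 * (ρ * θ)⁻¹ : ℝ) * Ds (P (Ft x)) 0,
  fun _ => ((2 * θ)⁻¹ : ℝ) * P (Gt x) 0 - (1 / 4 : ℝ) * x 4 0 - (θ / 2 : ℝ) * (x 4 0 * x 5 0)]

lemma gμ : Gd D (fun x _ => μ x) 3 θ :=
  ((gk 2).add ((g0 4).sm θ)).mono (by norm_num [θ]) (by norm_num [θ])
lemma gε : Gd D (fun x _ => ε x) ρ ρ :=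
  (((gk (1 / 2)).add ((g0 5).sm θ)).sm ρ).mono (by norm_num [θ, ρ]) (by norm_num [θ, ρ])
lemma gω : Gd D (fun x _ => ω x) 3 3 :=
  ((((g0 4).sm (1 / 2)).add ((g0 5).sm 2)).add (((g0 4).mul (g0 5)).sm θ)).mono
    (by norm_num [θ]) (by norm_num [θ])
lemma gwh : Gd An (fun _ => wh) 2 0 :=
  ((gk 1).add (ga.sm ρ)).mono (by norm_num [ρ]) (by norm_num)
lemma gzh : Gd An zh (2 * ρ) (2 * ρ) := (gε.mul gwh).mono (by norm_num [ρ]) (by norm_num [ρ])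
lemma gih : Gd An (fun _ => ih) 1 0 :=
  (((ga.sm (ρ / 2)).inv (by norm_num [ρ])).sm (1 / 2)).mono (by norm_num [ρ]) (by norm_num)
lemma gvh : Gd An (fun _ => vh) ρ 0 := (gih.sm (-ρ)).mono (by norm_num [ρ]) (by norm_num)
lemma h2 : 2 * ρ ≤ 1 := by norm_num [ρ]
lemma h1 : ρ ≤ 1 := by norm_num [ρ]
lemma ggh : Gd An gh (κ * ρ) (κ * ρ) :=
  ((((gzh.mul gzh).mul ((gx 2).comp gzh h2)).add ((gvh.mul gvh).mul ((gx 0).comp gvh h1))).sm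
    κ).mono (by norm_num [ρ, κ]) (by norm_num [ρ, κ])
lemma gqh : Gd An qh (5 * κ) (5 * κ) :=
  ((ggh.add (((gb.mul gb).mul (gx 0).r.i).sm κ)).mono (by norm_num [ρ, κ])
    (by norm_num [ρ, κ])).rt (by norm_num [κ])
lemma gph : Gd An ph (3 * ρ) κ :=
  ((ga.sm ρ).add (((gwh.mul ((gzh.mul gzh).mul ((gJ 2 2).comp gzh h2))).add (((gvh.mul
    ((gJ 0 0).comp gvh h1)).sub (gb.mul (gJ 0 0).r.i)).sm ρ)).sm κ)).mono
    (by norm_num [ρ, κ]) (by norm_num [ρ, κ])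
lemma gFt : Gd An Ft (κ / 100) (κ / 100) :=
  (((((ga.mul ((gqh.mul ((gk 1).add gph.i)).add gph.i)).sm ρ).sub ((ga.mul ((((gwh.mul
    ((gx 3).comp gzh h2)).add (((gx 1).comp gvh h1).mul gih)).sm κ).add (gμ.mul
    ((gvh.mul ga).sm (1 / 2))))).sm ρ)).add (gμ.mul ((ggh.i.sub (gqh.i.mul gqh.i)).sm (1 / 2)))).add
    (((g0 4).mul ((ga.mul ga).mul (gx 0).r)).sm (θ / 2 * κ))).mono
    (by norm_num [ρ, κ, θ]) (by norm_num [ρ, κ, θ])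
lemma gu1 : Gd An u1 (3 * ρ) (3 * ρ) :=
  ((gε.mul gb).mul (((gε.mul gb).sm (-1)).inv (by norm_num [ρ]))).mono
    (by norm_num [ρ]) (by norm_num [ρ])
lemma gt1 : Gd An t1 ρ ρ := (gu1.sm ρ).mono (by norm_num [ρ]) (by norm_num [ρ])
lemma ggo : Gd An go (κ * ρ) (κ * ρ) :=
  have := (gt1.mul gt1).mul ((gx 0).comp gt1 h1)
  ((this.add this.n).sm κ).mono (by norm_num [ρ, κ]) (by norm_num [ρ, κ])
lemma gqo : Gd An qo (5 * κ) (5 * κ) :=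
  ((ggo.add (((ga.mul ga).mul (gx 2).r).sm κ)).mono (by norm_num [ρ, κ])
    (by norm_num [ρ, κ])).rt (by norm_num [κ])
lemma gpo : Gd An po (κ * ρ) (κ * ρ) :=
  have := gt1.mul ((gJ 0 0).comp gt1 h1)
  (((gε.mul gb).mul (this.n.sub this)).sm (κ * ρ)).mono (by norm_num [ρ, κ]) (by norm_num [ρ, κ])
lemma gs1 : Gd An s1 (10 * ρ) (10 * ρ) :=
  ((gμ.add (((gx 1).comp gt1 h1).sm κ)).mul gu1).mono (by norm_num [ρ, κ]) (by norm_num [ρ, κ, θ])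
lemma gGt : Gd An Gt (κ / 100) (κ / 100) :=
  ((((((gqo.mul (gpo.i.add (((gb.mul gb).mul (gJ 2 2).r.i).sm κ))).add
    ((ggo.sub (gqo.mul gqo)).sm (1 / 2))).add gpo.i).sub ((gε.mul ga).mul (gs1.sub gs1.n))).sub
    (((gk 1).add (gω.sm θ)).mul ((ggo.i.sub (gqo.i.mul gqo.i)).sm (1 / 2)))).sub
    ((gω.mul ((gb.mul gb).mul (gx 2).r.i)).sm (θ / 2 * κ))).mono
    (by norm_num [ρ, κ, θ]) (by norm_num [ρ, κ, θ])

lemma gT (i : Fin 6) : Gd B (fun x => T x i) 1 (9 / 10) := by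
  fin_cases i
  · exact (gFt.p.d.d.sm (-κ⁻¹)).mono (by norm_num [κ]) (by norm_num [κ])
  · exact ((gFt.p.z.add (gi.mul gFt.v)).sm κ⁻¹).mono (by norm_num [κ]) (by norm_num [κ])
  · exact ((((gx 2).op (oJ 2)).sm 2).add (gGt.v.d.sm (2 * κ⁻¹))).mono (by norm_num [κ])
      (by norm_num [κ])
  · exact (((gx 2).sm (1 / 2)).add (gGt.p.d.d.sm κ⁻¹)).mono (by norm_num [κ]) (by norm_num [κ])
  · exact (gFt.p.d.z.sm (2 * (ρ * θ)⁻¹)).mono (by norm_num [κ, ρ, θ]) (by norm_num [κ, ρ, θ])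
  · exact (((gGt.p.z.sm (2 * θ)⁻¹).sub ((g0 4).sm (1 / 4))).sub (((g0 4).mul (g0 5)).sm
      (θ / 2))).mono (by norm_num [κ, θ]) (by norm_num [κ, θ])

variable {x}

lemma Gn (hx : Ad x) : ∀ s ∈ An, Gt x (-s) = 1 * Gt x s := fun s hs => by
  have e : ∀ t ∈ B, x 2 (-t) = x 2 t := fun t ht => ((hx 2).2 t ht).2.2 (Or.inl rfl)
  have a : ∀ t, go x (-t) = go x t := fun t => by simp [go, add_comm]
  have b : ∀ t ∈ An, qo x (-t) = qo x t := fun t ht => by simp [qo, a, e t (AB ht)]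
  have c : ∀ t, po x (-t) = po x t := fun t => by simp only [po, neg_neg, inv_neg]; ring
  simp only [Gt, inv_neg, neg_neg, a, c, b s hs, b _ (Ani hs), e _ (AB (Ani hs)),
    Jn 2 e _ (AB (Ani hs))]
  ring

lemma Gn2 (hx : Ad x) : ∀ s ∈ An, Iv (Gt x) (-s) = -1 * Iv (Gt x) s := fun s hs => by
  simp [Iv, inv_neg, Gn hx _ (Ani hs)]

lemma ex : ∃ x, Ad x ∧ ∀ i, ∀ s ∈ B, T x i s = x i s := by
  refine fix T (by norm_num) (by norm_num) gT fun x hx i hi s hs => ?_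
  have e : ∀ t ∈ B, x 2 (-t) = x 2 t := fun t ht => ((hx 2).2 t ht).2.2 (Or.inl rfl)
  rcases hi with rfl | rfl
  · simp [T, Jn 2 e s hs, Dn (Pn (Gn2 hx)) s hs]
  · simp [T, e s hs, Dn (Dn (Pn (Gn hx))) s hs]

lemma κ0 : (κ : ℂ) ≠ 0 := by norm_num [κ]
lemma θ0 : (θ : ℂ) ≠ 0 := by norm_num [θ]
lemma ρ0 : (ρ : ℂ) ≠ 0 := by norm_num [ρ]

lemma sA {t : ℂ} (h : ‖t‖ = 1) : t ∈ An := ⟨by rw [h]; norm_num, by rw [h]; norm_num⟩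

lemma Eh (hx : Ad x) (f : ∀ i, ∀ s ∈ B, T x i s = x i s) {t : ℂ} (h : ‖t‖ = 1) :
    Ft x t = ρ * t * (θ / 2 * x 4 0) + κ * x 1 t⁻¹ - κ * (t * t * x 0 t) := by
  have := κ0; have := θ0; have := ρ0
  rw [Pdec _ (gFt x hx).1 h, Dse (P (Ft x)), Dse (Ds (P (Ft x))), ← f 4 0 B0,
    ← f 1 _ (AB (Ani (sA h))), ← f 0 t (AB (sA h))]
  simp only [T]
  simp
  field_simp
  ring

lemma Eo (hx : Ad x) (f : ∀ i, ∀ s ∈ B, T x i s = x i s) {t : ℂ} (h : ‖t‖ = 1) :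
    Gt x t = θ * ω x + κ * (t * t) * (x 3 t - x 2 t / 2) +
      κ * (t⁻¹ * t⁻¹) * (x 2 t⁻¹ / 2 - J 2 (x 2) t⁻¹) := by
  have := κ0; have := θ0
  have a := Dn (Pn (Gn hx)) 0 B0
  have b := Pn (Gn2 hx) 0 B0
  have c := f 5 0 B0
  have d := f 3 t (AB (sA h))
  have e := f 2 _ (AB (Ani (sA h)))
  rw [neg_zero] at a b
  rw [Pdec _ (gGt x hx).1 h, Dse (P (Gt x)), Dse (Ds (P (Gt x))), Dse (P (Iv (Gt x))), ω]
  simp [T] at c d e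
  field_simp at c d e
  simp only [one_div] at e
  push_cast
  linear_combination t / 2 * a + t⁻¹ / 2 * b + c / 4 + t * t / 2 * d + t⁻¹ * t⁻¹ / 2 * e

end Pool.Agent.H.MP_9159b8_an
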