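import Pool.Agent.H.MP_9159b8_an.C

set_option autoImplicit false
open Complex Filter Topology Set Metric
open scoped Real ComplexConjugate

namespace Pool.Agent.H.MP_9159b8_an

variable (x : X)
noncomputable def τ (w : ℂ) : ℂ := ρ * (w - 1)⁻¹
noncomputable def g (w : ℂ) : ℂ := κ * (ε x * w * (ε x * w) * x 2 (ε x * w) +
  τ w * τ w * x 0 (τ w) + τ (-w) * τ (-w) * x 0 (τ (-w)))
noncomputable def Hk (k : ℕ) (i : Fin 6) (z : ℂ) : ℂ := z ^ (k + 1) * J k (x i) z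
noncomputable def φ (w : ℂ) : ℂ := w + κ * ((ε x)⁻¹ * Hk x 2 2 (ε x * w) - ρ * Hk x 0 0 (τ w) +
  ρ * Hk x 0 0 (τ (-w)))
noncomputable def S (w : ℂ) : ℂ := κ * (w * x 3 (ε x * w)) + (μ x + κ * x 1 (τ w)) * (w - 1)⁻¹ -
  (μ x + κ * x 1 (τ (-w))) * (-w - 1)⁻¹
noncomputable def R (w : ℂ) : ℂ := sqrt (1 + g x w)
def W : Set ℂ := {w | ‖ε x * w‖ < 2 ∧ ρ / 2 < ‖w - 1‖ ∧ ρ / 2 < ‖-w - 1‖}

lemma ρp : 0 < ρ := by norm_num [ρ]

lemma Wo : IsOpen (W x) := by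
  have a : IsOpen {w | ‖ε x * w‖ < 2} := isOpen_lt (by fun_prop) continuous_const
  have b : IsOpen {w : ℂ | ρ / 2 < ‖w - 1‖} := isOpen_lt continuous_const (by fun_prop)
  have c : IsOpen {w : ℂ | ρ / 2 < ‖-w - 1‖} := isOpen_lt continuous_const (by fun_prop)
  exact a.inter (b.inter c)

lemma τn (w : ℂ) : ‖τ w‖ = ρ / ‖w - 1‖ := by
  rw [τ, norm_mul, norm_inv, norm_real, Real.norm_of_nonneg ρp.le, div_eq_mul_inv]

lemma τB {w : ℂ} (h : ρ / 2 < ‖w - 1‖) : w - 1 ≠ 0 ∧ τ w ∈ B ∧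
    HasDerivAt τ (-(τ w * τ w) / ρ) w := by
  have := ρp
  have n : w - 1 ≠ 0 := norm_pos_iff.1 (by linarith)
  refine ⟨n, mem_ball_zero_iff.2 ?_, ((((hasDerivAt_id w).sub_const 1).fun_inv n).const_mul
    (ρ : ℂ)).congr_deriv ?_⟩
  · rw [τn, div_lt_iff₀ (by linarith)]; linarith
  · have := ρ0
    simp only [τ, id]; field_simp

variable {x}

lemma εc (hx : Ad x) : conj (ε x) = ε x ∧ conj (μ x) = μ x ∧ ρ / 3 ≤ (ε x).re ∧ (ε x).re ≤ ρ ∧
    μ x ≠ 0 := by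
  have a := abs_le.1 ((abs_re_le_norm _).trans ((hx 5).2 0 B0).1)
  have b := abs_le.1 ((abs_re_le_norm _).trans ((hx 4).2 0 B0).1)
  refine ⟨by simpa using ((gε (D := B) x hx).2.1 0 B0).2,
    by simpa using ((gμ (D := B) x hx).2.1 0 B0).2, ?_, ?_, fun h => ?_⟩
  · simp [ε]; norm_num [ρ, θ]; linarith
  · simp [ε]; norm_num [ρ, θ]; linarith
  · have := congrArg re h
    simp [μ] at this; norm_num [θ] at this; linarith

lemma ε0 (hx : Ad x) : ε x ≠ 0 := fun h => by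
  have := (εc hx).2.2.1
  rw [h] at this; norm_num [ρ] at this

lemma W1 (hx : Ad x) {w : ℂ} (h : w ∈ W x) : HasDerivAt (φ x) (1 + g x w) w := by
  have z : ε x * w ∈ B := mem_ball_zero_iff.2 h.1
  obtain ⟨n1, b1, d1⟩ := τB h.2.1
  obtain ⟨n2, b2, d2⟩ := τB h.2.2
  have d3 : HasDerivAt (fun w => τ (-w)) _ w := d2.comp w (hasDerivAt_neg' w)
  have e0 : HasDerivAt (fun w => Hk x 2 2 (ε x * w)) _ w :=
    (Jd 2 (hx 2).1 z).comp w (hasDerivAt_const_mul (ε x))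
  have e1 : HasDerivAt (fun w => Hk x 0 0 (τ w)) _ w := (Jd 0 (hx 0).1 b1).comp w d1
  have e2 : HasDerivAt (fun w => Hk x 0 0 (τ (-w))) _ w :=
    HasDerivAt.comp (h := fun w => τ (-w)) w (Jd 0 (hx 0).1 b2) d3
  refine ((hasDerivAt_id w).fun_add ((((e0.const_mul (ε x)⁻¹).fun_sub (e1.const_mul (ρ:ℂ))).fun_add
    (e2.const_mul (ρ:ℂ))).const_mul (κ:ℂ))).congr_deriv ?_
  have := ρ0
  have := ε0 hx
  simp only [g]; field_simp; ring

lemma W2 (hx : Ad x) {w : ℂ} (h : w ∈ W x) :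
    DifferentiableAt ℂ (g x) w ∧ DifferentiableAt ℂ (S x) w := by
  have z : ε x * w ∈ B := mem_ball_zero_iff.2 h.1
  obtain ⟨n1, b1, d1⟩ := τB h.2.1
  obtain ⟨n2, b2, d2⟩ := τB h.2.2
  have d3 : DifferentiableAt ℂ (fun w => τ (-w)) w :=
    (d2.comp w (hasDerivAt_neg' w)).differentiableAt
  have d1 := d1.differentiableAt
  have D : ∀ i, ∀ s ∈ B, DifferentiableAt ℂ (x i) s := fun i s hs =>
    (hx i).1.differentiableAt (isOpen_ball.mem_nhds hs)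
  have e0 : ∀ i, DifferentiableAt ℂ (fun w => x i (ε x * w)) w := fun i =>
    (D i _ z).comp w (differentiableAt_id.const_mul _)
  have e1 : ∀ i, DifferentiableAt ℂ (fun w => x i (τ w)) w := fun i => (D i _ b1).comp w d1
  have e2 : ∀ i, DifferentiableAt ℂ (fun w => x i (τ (-w))) w := fun i => (D i _ b2).comp w d3
  have e3 : DifferentiableAt ℂ (fun w : ℂ => (w - 1)⁻¹) w := (differentiableAt_id.sub_const _).inv n1
  have e4 : DifferentiableAt ℂ (fun w : ℂ => (-w - 1)⁻¹) w :=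
    (differentiableAt_id.neg.sub_const _).inv n2
  have e5 : DifferentiableAt ℂ (fun w : ℂ => ε x * w) w := differentiableAt_id.const_mul _
  exact ⟨((((e5.fun_mul e5).fun_mul (e0 2)).fun_add ((d1.fun_mul d1).fun_mul (e1 0))).fun_add
    ((d3.fun_mul d3).fun_mul (e2 0))).const_mul _, (((differentiableAt_id.fun_mul (e0 3)).const_mul
    _).fun_add ((((e1 1).const_mul _).const_add _).fun_mul e3)).fun_sub
    ((((e2 1).const_mul _).const_add _).fun_mul e4)⟩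

lemma Wd (hx : Ad x) {w : ℂ} (h : w ∈ W x) : HasDerivAt (φ x) (1 + g x w) w ∧ ‖g x w‖ < 1 ∧
    DifferentiableAt ℂ (g x) w ∧ DifferentiableAt ℂ (S x) w ∧ conj (g x w) = g x (conj w) ∧
    conj (φ x w) = φ x (conj w) ∧ g x (-w) = g x w ∧ φ x (-w) = -φ x w ∧ S x (-w) = -S x w := by
  have z : ε x * w ∈ B := mem_ball_zero_iff.2 h.1
  have b1 := (τB h.2.1).2.1
  have b2 := (τB h.2.2).2.1
  have N : ∀ i, ∀ s ∈ B, ‖s * s * x i s‖ ≤ 2 * 2 * 1 := fun i s hs =>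
    nm (nm (mem_ball_zero_iff.1 hs).le (mem_ball_zero_iff.1 hs).le) ((hx i).2 s hs).1
  have c : ∀ i, ∀ s ∈ B, conj (x i s) = x i (conj s) := fun i s hs => ((hx i).2 s hs).2.1
  have cJ := fun k i => (oJ k).c _ (hx i).1 (c i)
  have e : ∀ t ∈ B, x 2 (-t) = x 2 t := fun t ht => ((hx 2).2 t ht).2.2 (Or.inl rfl)
  have ct : ∀ v, conj (τ v) = τ (conj v) := fun v => by simp [τ]
  refine ⟨W1 hx h, ?_, (W2 hx h).1, (W2 hx h).2, ?_, ?_, ?_, ?_, ?_⟩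
  · exact (nm (norm_real κ).le (norm_add_le_of_le (norm_add_le_of_le (N 2 _ z) (N 0 _ b1))
      (N 0 _ b2))).trans_lt (by norm_num [κ])
  · simp [g, c _ _ z, c _ _ b1, c _ _ b2, ct, (εc hx).1]
  · simp [φ, Hk, cJ _ _ _ z, cJ _ _ _ b1, cJ _ _ _ b2, ct, (εc hx).1]
  · simp only [g, mul_neg, neg_neg, e _ z]; ring
  · simp only [φ, Hk, mul_neg, neg_neg, Jn 2 e _ z]; ring
  · simp only [S, mul_neg, neg_neg, ((hx 3).2 _ z).2.2 (Or.inr rfl)]; ring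

lemma Hl (hx : Ad x) (k : ℕ) (i : Fin 6) {s t : ℂ} (hs : ‖s‖ ≤ 1) (ht : ‖t‖ ≤ 1) :
    ‖Hk x k i s - Hk x k i t‖ ≤ 1 * ‖s - t‖ := by
  have m : closedBall (0:ℂ) 1 ⊆ B := closedBall_subset_ball (by norm_num)
  refine (convex_closedBall (0:ℂ) 1).norm_image_sub_le_of_norm_hasDerivWithin_le
    (fun z hz => (Jd k (hx i).1 (m hz)).hasDerivWithinAt) (fun z hz => ?_)
    (mem_closedBall_zero_iff.2 ht) (mem_closedBall_zero_iff.2 hs)
  exact (nm ((norm_pow z k).trans_le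
    (pow_le_one₀ (norm_nonneg _) (mem_closedBall_zero_iff.1 hz))) ((hx i).2 z (m hz)).1).trans
    (by norm_num)

lemma τl {w v : ℂ} (a : ρ ≤ ‖w - 1‖) (b : ρ ≤ ‖v - 1‖) :
    ‖τ w‖ ≤ 1 ∧ ‖τ v‖ ≤ 1 ∧ ρ * ‖τ w - τ v‖ ≤ ‖w - v‖ := by
  have := ρp
  have c : ∀ u : ℂ, ρ ≤ ‖u - 1‖ → ‖τ u‖ ≤ 1 := fun u h => by
    rw [τn, div_le_one (by linarith)]; exact h
  refine ⟨c w a, c v b, ?_⟩
  have n1 := (τB (w := w) (by linarith)).1
  have n2 := (τB (w := v) (by linarith)).1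
  have e : (ρ:ℂ) * (τ w - τ v) = -(τ w * τ v * (w - v)) := by unfold τ; field_simp; ring
  have := congrArg norm e
  rw [norm_mul, norm_real, Real.norm_of_nonneg ρp.le, norm_neg] at this
  rw [this]
  simpa using nm (nm (c w a) (c v b)) le_rfl

lemma bh (hx : Ad x) (f : ∀ i, ∀ s ∈ B, T x i s = x i s) {t : ℂ} (h : ‖t‖ = 1)
    (m : wh t ∈ W x) : (R x (wh t) * conj (φ x (wh t)) - S x (wh t)) * (ρ * t) =
      -μ x * conj (R x (wh t)) := by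
  have r := ρ0
  have t0 := An0 (sA h)
  have a : ∀ t : ℂ, τ (wh t) = t⁻¹ := fun t => by
    simp only [τ, wh, ofReal_one, add_sub_cancel_left, mul_inv, mul_inv_cancel_left₀ r]
  have b : ∀ t : ℂ, (-wh t - 1)⁻¹ = -ih t := fun t => by
    rw [ih, show -wh t - 1 = -(2 * (1 + (ρ / 2 : ℝ) * t)) by unfold wh; push_cast; ring]
    simp [mul_comm]
  have c : ∀ t : ℂ, τ (-wh t) = vh t := fun t => by simp [τ, b, vh]
  have d : ∀ t, g x (wh t) = gh x t + κ * (t⁻¹ * t⁻¹ * x 0 t⁻¹) := fun t => by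
    simp only [g, a, c, gh, zh]; ring
  have e : ∀ t, φ x (wh t) = 1 + ph x t := fun t => by
    have := ε0 hx
    simp only [φ, Hk, a, c, ph, zh]; field_simp; simp only [wh]; push_cast; ring
  have k : conj (wh t) = wh t⁻¹ := by simp [wh, inv_eq_conj h]
  have l := Wd hx m
  have n := (Rt (g := g x (wh t⁻¹)) (by rw [← k, ← l.2.2.2.2.1]; simpa using l.2.1)).1
  have E := Eh hx f h
  rw [R, (Rt l.2.1).2.2.1, l.2.2.2.2.1, l.2.2.2.2.2.1, k, e, S, a, b, c,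
    show (wh t - 1)⁻¹ = (ρ * t)⁻¹ by simp [wh]]
  simp only [Ft, qh, ← d, zh] at E
  rw [d t⁻¹, inv_inv] at n
  rw [d t⁻¹, inv_inv] at E ⊢
  have i : ih t = 1 / 2 + vh t * t / 2 := by
    have : 1 + ((ρ / 2 : ℝ) : ℂ) * t ≠ 0 := fun e => by
      have := congrArg norm (neg_eq_of_add_eq_zero_right e)
      simp [h] at this; norm_num [ρ] at this
    simp only [vh, ih]; push_cast at this ⊢
    linear_combination inv_mul_cancel₀ this / 2
  have j : μ x = 2 + θ * x 4 0 := by simp [μ]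
  push_cast at E
  have u : (ρ * t : ℂ)⁻¹ * (ρ * t) = 1 := inv_mul_cancel₀ (mul_ne_zero r t0)
  linear_combination E + μ x / 2 * n - (μ x + κ * x 1 t⁻¹) * u - ρ * t * μ x * i -
    (ρ * t / 2 - κ * t * t * x 0 t / 2) * j

lemma bo (hx : Ad x) (f : ∀ i, ∀ s ∈ B, T x i s = x i s) {t : ℂ} (h : ‖t‖ = 1)
    (m : (ε x)⁻¹ * t ∈ W x) : (R x ((ε x)⁻¹ * t) * conj (φ x ((ε x)⁻¹ * t)) - S x ((ε x)⁻¹ * t)) *
      ((ε x)⁻¹ * t) = μ x / ρ * (ε x)⁻¹ * conj (R x ((ε x)⁻¹ * t)) := by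
  have r := ρ0
  have z := ε0 hx
  have t0 := An0 (sA h)
  have a : ∀ t : ℂ, t ≠ 0 → ((ε x)⁻¹ * t - 1)⁻¹ = u1 x t := fun t n => by
    rw [u1, ← inv_inv (ε x * t⁻¹), ← mul_inv, inv_inv]; congr 1; push_cast; field_simp; ring
  have b : ∀ t : ℂ, t ≠ 0 → τ ((ε x)⁻¹ * t) = t1 x t := fun t n => by rw [τ, a t n, t1]
  have c : ∀ t : ℂ, ε x * ((ε x)⁻¹ * t) = t := fun t => mul_inv_cancel_left₀ z t
  have d : ∀ t : ℂ, t ≠ 0 → g x ((ε x)⁻¹ * t) = go x t + κ * (t * t * x 2 t) := fun t n => by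
    simp only [g, ← mul_neg, b t n, b _ (neg_ne_zero.2 n), c, go]; ring
  have e : ∀ t : ℂ, t ≠ 0 → φ x ((ε x)⁻¹ * t) =
      (ε x)⁻¹ * t * (1 + po x t + κ * (t * t * J 2 (x 2) t)) := fun t n => by
    simp only [φ, Hk, ← mul_neg, b t n, b _ (neg_ne_zero.2 n), c, po]; push_cast; field_simp; ring
  have k : conj ((ε x)⁻¹ * t) = (ε x)⁻¹ * t⁻¹ := by simp [inv_eq_conj h, (εc hx).1]
  have l := Wd hx m
  have n := (Rt (g := g x ((ε x)⁻¹ * t⁻¹)) (by rw [← k, ← l.2.2.2.2.1]; simpa using l.2.1)).1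
  have n' := (Rt l.2.1).1
  have E := Eo hx f h
  rw [R, (Rt l.2.1).2.2.1, l.2.2.2.2.1, l.2.2.2.2.2.1, k, e _ (inv_ne_zero t0), S, ← mul_neg,
    a t t0, a _ (neg_ne_zero.2 t0), b t t0, b _ (neg_ne_zero.2 t0), c]
  rw [d _ (inv_ne_zero t0)] at n ⊢
  rw [d t t0] at n' ⊢
  simp only [Gt, qo, s1] at E
  have j : μ x / ρ = (ε x)⁻¹ * (1 + θ * ω x) := by
    field_simp; simp only [μ, ε, ω]; push_cast; ring
  have u : t⁻¹ * t = 1 := inv_mul_cancel₀ t0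
  have v : (ε x)⁻¹ * ε x = 1 := inv_mul_cancel₀ z
  push_cast at E
  rw [j]
  generalize sqrt (1 + (go x t + κ * (t * t * x 2 t))) = A at *
  generalize sqrt (1 + (go x t⁻¹ + κ * (t⁻¹ * t⁻¹ * x 2 t⁻¹))) = A' at *
  linear_combination (ε x)⁻¹ ^ 2 * (E + n' / 2 - (1 + θ * ω x) / 2 * n + A * (1 + po x t⁻¹ +
    κ * (t⁻¹ * t⁻¹ * J 2 (x 2) t⁻¹)) * u) + (ε x)⁻¹ * t * ((μ x + κ * x 1 (t1 x t)) * u1 x t -
    (μ x + κ * x 1 (t1 x (-t))) * u1 x (-t)) * v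

def a : Fin 2 → ℂ := ![1, -1]
def K (r : ℝ) : Set ℂ := {w | ‖w‖ ≤ r ∧ ∀ j, ρ ≤ ‖w - a j‖}

lemma main : ∃ (r l : ℝ) (φ R S : ℂ → ℂ), 6 ≤ r ∧ l ≠ 0 ∧ InjOn φ (K r) ∧
    (∀ w ∈ K r, AnalyticAt ℂ φ w ∧ HasDerivAt φ (R w ^ 2) w ∧ R w ≠ 0 ∧
      DifferentiableAt ℂ R w ∧ DifferentiableAt ℂ S w) ∧
    (∀ s : ℂ, ‖s‖ = r → (R s * conj (φ s) - S s) * s = l * r * conj (R s)) ∧
    ∀ j (s : ℂ), ‖s‖ = ρ → (R (a j + s) * conj (φ (a j + s)) - S (a j + s)) * s =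
      -(l * ρ * conj (R (a j + s))) := by
  obtain ⟨x, hx, f⟩ := ex
  obtain ⟨c1, c2, c3, c4, c5⟩ := εc hx
  have p := ρp
  have r0 := ρ0
  have e0 : 0 < (ε x).re := by linarith
  have e1 := conj_eq_iff_re.1 c1
  have e2 := conj_eq_iff_re.1 c2
  set r := (ε x).re⁻¹
  have r6 : 6 ≤ r := le_inv_of_le_inv₀ e0 (c4.trans (by norm_num [ρ]))
  have KW : ∀ w ∈ K r, ‖ε x * w‖ ≤ 1 ∧ ρ ≤ ‖w - 1‖ ∧ ρ ≤ ‖-w - 1‖ := fun w hw => ⟨by
    rw [norm_mul, ← e1, norm_real, Real.norm_of_nonneg e0.le]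
    exact (mul_le_mul_of_nonneg_left hw.1 e0.le).trans_eq (mul_inv_cancel₀ e0.ne'), hw.2 0, by
    rw [← norm_neg]; simpa [a, add_comm] using hw.2 1⟩
  have KW' : ∀ w ∈ K r, w ∈ W x := fun w hw =>
    ⟨by linarith [(KW w hw).1], by linarith [(KW w hw).2.1], by linarith [(KW w hw).2.2]⟩
  have hb : ∀ s : ℂ, ‖s‖ = ρ → 1 + s ∈ W x ∧ (R x (1 + s) * conj (φ x (1 + s)) - S x (1 + s)) * s =
      -(((μ x).re / ρ : ℝ) * ρ * conj (R x (1 + s))) := fun s hs => by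
    have m : 1 + s ∈ W x := by
      have := norm_add_le 1 s
      have := norm_sub_le (2 + s) s
      refine KW' _ ⟨by simp at *; linarith [h1], fun j => ?_⟩
      fin_cases j <;> simp [a, hs]
      rw [add_right_comm, one_add_one_eq_two]; simp at *; linarith [h1]
    have e : wh (s / ρ) = 1 + s := by simp [wh]; field_simp
    have := bh hx f (t := s / ρ) (by simp [hs, abs_of_pos p, p.ne']) (e ▸ m)
    rw [e, mul_div_cancel₀ _ r0] at this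
    refine ⟨m, this.trans ?_⟩
    push_cast; rw [e2]; field_simp
  refine ⟨r, (μ x).re / ρ, φ x, R x, S x, r6, div_ne_zero (fun e => c5 (by rw [← e2, e]; rfl))
    p.ne', fun w hw v hv h => ?_, fun w hw => ?_, fun s hs => ?_, fun j s hs => ?_⟩
  · obtain ⟨a1, a2, a3⟩ := KW w hw
    obtain ⟨b1, b2, b3⟩ := KW v hv
    have A := τl a2 b2
    have A' := τl a3 b3
    have n : ‖(ρ:ℂ)‖ ≤ ρ := by simp [abs_of_pos p]
    have := nm (norm_real κ).le (norm_add_le_of_le (norm_sub_le_of_le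
      (nm (z := (ε x)⁻¹) le_rfl (Hl hx 2 2 a1 b1)) (nm n (Hl hx 0 0 A.1 A.2.1)))
      (nm n (Hl hx 0 0 A'.1 A'.2.1)))
    rw [← mul_sub (ε x), norm_mul (ε x), one_mul, ← mul_assoc, norm_inv,
      inv_mul_cancel₀ (norm_ne_zero_iff.2 (ε0 hx)), show (κ:ℂ) * _ = -(w - v) by
      unfold φ at h; linear_combination h, norm_neg] at this
    rw [neg_sub_neg, norm_sub_rev v] at A'
    norm_num [κ] at this
    exact sub_eq_zero.1 (norm_le_zero_iff.1 (by linarith [A.2.2, A'.2.2]))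
  · have l := Wd hx (KW' w hw)
    have k := Rt l.2.1
    refine ⟨DifferentiableOn.analyticAt (fun v hv => (Wd hx hv).1.differentiableAt.differentiableWithinAt)
      ((Wo x).mem_nhds (KW' w hw)), l.1.congr_deriv k.1.symm, fun e => ?_,
      k.2.2.2.comp w (l.2.2.1.const_add 1), l.2.2.2.1⟩
    have := k.2.1
    rw [show sqrt (1 + g x w) = 0 from e] at this
    simp at this; linarith [l.2.1]
  · have e : (ε x)⁻¹ * (ε x * s) = s := inv_mul_cancel_left₀ (ε0 hx) s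
    have := bo hx f (t := ε x * s) (by
      rw [norm_mul, ← e1, norm_real, Real.norm_of_nonneg e0.le, hs, mul_inv_cancel₀ e0.ne'])
      (e.symm ▸ KW' s ⟨hs.le, fun j => by
        have := norm_sub_norm_le s (a j)
        fin_cases j <;> simp [a] at this ⊢ <;> linarith [h1]⟩)
    rw [e] at this
    simpa [r, e1, e2] using this
  · fin_cases j
    · exact (hb s hs).2
    · obtain ⟨m, k⟩ := hb (-s) (by simpa using hs)
      have l := Wd hx m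
      simp only [a, R, show -1 + s = -(1 + -s) by ring, Fin.mk_one, Matrix.cons_val_one,
        Matrix.cons_val_zero, l.2.2.2.2.2.2.1, l.2.2.2.2.2.2.2.1, l.2.2.2.2.2.2.2.2, map_neg] at k ⊢
      linear_combination k

end Pool.Agent.H.MP_9159b8_an
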