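import Pool.Agent.H.MP_9159b8_an.D

set_option autoImplicit false
open Complex Filter Topology Set Metric MeasureTheory
open scoped Real ComplexConjugate

namespace Pool.Agent.H.MP_9159b8_an

noncomputable def db (G : ℂ → ℂ) (w : ℂ) : ℂ := fderiv ℝ G w 1 + I * fderiv ℝ G w I

lemma lin (L : ℂ →L[ℝ] ℂ) (v : ℂ) : L v = v.re * L 1 + v.im * L I := by
  conv_lhs => rw [show v = v.re • (1:ℂ) + v.im • I by simp]
  rw [map_add, map_smul, map_smul, real_smul, real_smul]

lemma ms (c : ℂ) (p q : ℝ) : MeasurableSet {w : ℂ | p < ‖w - c‖ ∧ ‖w - c‖ < q} :=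
  ((isOpen_lt (g := fun w : ℂ => ‖w - c‖) continuous_const (by fun_prop)).inter
    (isOpen_lt (f := fun w : ℂ => ‖w - c‖) (by fun_prop) continuous_const)).measurableSet

lemma green (c : ℂ) {p q : ℝ} (hp : 0 ≤ p) (hq : p ≤ q) (G D : ℂ → ℂ)
    (hG : ContinuousOn G {w | p ≤ ‖w - c‖ ∧ ‖w - c‖ ≤ q})
    (hD : ContinuousOn D {w | p ≤ ‖w - c‖ ∧ ‖w - c‖ ≤ q})
    (hd : ∀ w, p < ‖w - c‖ → ‖w - c‖ < q → DifferentiableAt ℝ G w ∧ db G w = D w) :
    (∮ z in C(c, q), G z) - (∮ z in C(c, p), G z) =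
      I * ∫ w in {w | p < ‖w - c‖ ∧ ‖w - c‖ < q}, D w := by
  classical
  set e : ℝ × ℝ → ℂ := fun x => circleMap 0 1 x.2 with he
  set m : ℝ × ℝ → ℂ := fun x => c + x.1 * e x with hm
  have ce : Continuous e := (continuous_circleMap 0 1).comp continuous_snd
  have cm : Continuous m := by fun_prop
  have mn : ∀ x : ℝ × ℝ, 0 ≤ x.1 → ‖m x - c‖ = x.1 := fun x h => by simp [hm, he, abs_of_nonneg h]
  have mi : MapsTo m (Icc (p, -π) (q, π)) {w | p ≤ ‖w - c‖ ∧ ‖w - c‖ ≤ q} := fun x hx => by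
    rw [mem_ofPred_eq, mn x (hp.trans hx.1.1)]; exact ⟨hx.1.1, hx.2.1⟩
  set U := Ioo p q ×ˢ Ioo (-π) π with hU
  set f : ℝ × ℝ → ℂ := fun x => G (m x) * (I * (x.1 * e x))
  set g : ℝ × ℝ → ℂ := fun x => -(G (m x) * e x)
  have cG := hG.comp cm.continuousOn mi
  have k : ∀ x ∈ U, DifferentiableAt ℝ f x ∧ DifferentiableAt ℝ g x ∧
      fderiv ℝ f x (1, 0) + fderiv ℝ g x (0, 1) = I * (x.1 * D (m x)) := fun x hx => by
    have n := mn x (hp.trans hx.1.1.le)
    obtain ⟨d1, d2⟩ := hd (m x) (n ▸ hx.1.1) (n ▸ hx.1.2)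
    have de : HasFDerivAt e _ x :=
      (hasDerivAt_circleMap 0 1 x.2).hasFDerivAt.comp x hasFDerivAt_snd
    have dr : HasFDerivAt (fun x : ℝ × ℝ => (x.1 : ℂ) * e x) _ x :=
      (ofRealCLM.hasFDerivAt.comp x hasFDerivAt_fst).mul de
    have dG : HasFDerivAt (fun x => G (m x)) _ x := d1.hasFDerivAt.comp x (dr.const_add c)
    have df : HasFDerivAt f _ x := dG.mul (dr.const_mul I)
    have dg : HasFDerivAt g _ x := (dG.mul de).neg
    refine ⟨df.differentiableAt, dg.differentiableAt, ?_⟩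
    rw [df.fderiv, dg.fderiv, ← d2, db]
    have a := lin (fderiv ℝ G (m x)) (e x)
    have b := lin (fderiv ℝ G (m x)) (x.1 * (e x * I))
    have s : (e x).re ^ 2 + (e x).im ^ 2 = 1 := by simp [he, circleMap_zero_re, circleMap_zero_im]
    have s' : ((e x).re : ℂ) ^ 2 + (e x).im ^ 2 = 1 := by exact_mod_cast s
    have t := re_add_im (e x)
    simp at b ⊢
    rw [show circleMap 0 1 x.2 = e x from rfl, a, b]
    generalize ((e x).re : ℂ) = u at *
    generalize ((e x).im : ℂ) = v at *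
    rw [← t]
    linear_combination (x.1 * (I * fderiv ℝ G (m x) 1 - fderiv ℝ G (m x) I) : ℂ) * s' +
      (x.1 * (u * v * fderiv ℝ G (m x) 1 + (v ^ 2 - 1) * fderiv ℝ G (m x) I) : ℂ) * I_sq
  have E : ∀ x, (if x ∈ U then fderiv ℝ f x else (ContinuousLinearMap.fst ℝ ℝ ℝ).smulRight
      (I * (x.1 * D (m x)))) (1, 0) + (if x ∈ U then fderiv ℝ g x else 0) (0, 1) =
      I * (x.1 * D (m x)) := fun x => by
    split_ifs with h
    · exact (k x h).2.2
    · simp
  have A := integral_divergence_prod_Icc_of_hasFDerivAt_of_le f g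
    (fun x => if x ∈ U then fderiv ℝ f x else (ContinuousLinearMap.fst ℝ ℝ ℝ).smulRight
      (I * (x.1 * D (m x)))) (fun x => if x ∈ U then fderiv ℝ g x else 0) (p, -π) (q, π)
    ⟨hq, by linarith [Real.pi_pos]⟩ (cG.mul (Continuous.continuousOn (by fun_prop)))
    (cG.mul ce.continuousOn).neg (fun x hx => by
      simp only [if_pos (show x ∈ U from hx)]; exact (k x hx).1.hasFDerivAt) (fun x hx => by
      simp only [if_pos (show x ∈ U from hx)]; exact (k x hx).2.1.hasFDerivAt) (by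
      simp only [E]
      exact (continuousOn_const.mul ((Continuous.continuousOn (by fun_prop)).mul
        (hD.comp cm.continuousOn mi))).integrableOn_compact isCompact_Icc)
  have B : ∀ r : ℝ, ∫ y in -π..π, f (r, y) = ∮ z in C(c, r), G z := fun r => by
    have := ((periodic_circleMap 0 1).comp fun z => G (c + r * z) * (I * (r * z))
      ).intervalIntegral_add_eq (-π) 0
    rw [show -π + 2 * π = π by ring, zero_add] at this
    refine this.trans (intervalIntegral.integral_congr fun θ _ => ?_)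
    simp [deriv_circleMap, circleMap]; ring
  have Z : ∀ r : ℝ, g (r, π) = g (r, -π) := fun r => by
    have : circleMap 0 1 π = circleMap 0 1 (-π) := by simp [circleMap, exp_neg]
    simp only [g, hm, he, this]
  simp only [E, B, Z, sub_self, zero_add, integral_const_mul] at A
  rw [← A, ← integral_indicator (ms c p q), ← integral_add_left_eq_self _ c,
    ← Complex.integral_comp_polarCoord_symm, Icc_prod_eq, Measure.volume_eq_prod,
    setIntegral_congr_set (Measure.set_prod_ae_eq Ioo_ae_eq_Icc Ioo_ae_eq_Icc).symm,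
    setIntegral_eq_of_subset_of_forall_sdiff_eq_zero polarCoord.open_target.measurableSet
    (s := U) (fun x hx => ⟨hp.trans_lt hx.1.1, hx.2⟩) fun x hx => ?_]
  · congr 1
    refine setIntegral_congr_fun (measurableSet_Ioo.prod measurableSet_Ioo) fun x hx => ?_
    have : c + Complex.polarCoord.symm x = m x := by simp [hm, he, circleMap, exp_mul_I]
    simp only [this]
    rw [indicator_of_mem (by rw [mem_ofPred_eq, mn x (hp.trans hx.1.1.le)]; exact hx.1), real_smul]
  · rw [indicator_of_notMem, smul_zero]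
    rw [mem_ofPred_eq, add_sub_cancel_left, norm_polarCoord_symm, abs_of_pos hx.1.1]
    exact fun h => hx.2 ⟨h, hx.1.2⟩

def V (r : ℝ) : Set ℂ := {w | ‖w‖ < r ∧ ∀ j, ρ < ‖w - a j‖}

lemma Vo (r : ℝ) : IsOpen (V r) := by
  have : IsOpen {w : ℂ | ∀ j, ρ < ‖w - a j‖} := by
    rw [Set.ofPred_forall]
    exact isOpen_iInter_of_finite fun j => isOpen_lt continuous_const (by fun_prop)
  exact (isOpen_lt continuous_norm continuous_const).inter this

lemma Kc (r : ℝ) : IsCompact (K r) := by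
  refine (isCompact_closedBall (0:ℂ) r).of_isClosed_subset ?_ fun w hw =>
    mem_closedBall_zero_iff.2 hw.1
  have : IsClosed {w : ℂ | ∀ j, ρ ≤ ‖w - a j‖} := by
    rw [Set.ofPred_forall]
    exact isClosed_iInter fun j => isClosed_le continuous_const (by fun_prop)
  exact (isClosed_le continuous_norm continuous_const).inter this

lemma VK {r : ℝ} : V r ⊆ K r := fun _ hw => ⟨hw.1.le, fun j => (hw.2 j).le⟩

lemma dbm {ψ G : ℂ → ℂ} {w : ℂ} (h : DifferentiableAt ℝ ψ w) (k : DifferentiableAt ℝ G w) :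
    db (fun w => ψ w * G w) w = ψ w * db G w + db ψ w * G w := by
  simp [db, fderiv_fun_mul h k]; ring

lemma piece {r : ℝ} {G D ψ : ℂ → ℂ} (hG : ContinuousOn G (K r)) (hD : ContinuousOn D (K r))
    (hd : ∀ w ∈ V r, DifferentiableAt ℝ G w ∧ db G w = D w) (hψ : ContDiff ℝ 1 ψ) (c : ℂ)
    {p q : ℝ} (hp : 0 ≤ p) (hq : p ≤ q)
    (h1 : ∀ w ∈ {w | p ≤ ‖w - c‖ ∧ ‖w - c‖ ≤ q}, ψ =ᶠ[𝓝 w] 0 ∨
      w ∈ K r ∧ K r ∈ 𝓝[{w | p ≤ ‖w - c‖ ∧ ‖w - c‖ ≤ q}] w)
    (h2 : ∀ w, p < ‖w - c‖ → ‖w - c‖ < q → ψ =ᶠ[𝓝 w] 0 ∨ w ∈ V r)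
    (h3 : ∀ w ∈ V r, w ≠ c → ¬ (p < ‖w - c‖ ∧ ‖w - c‖ < q) → ψ =ᶠ[𝓝 w] 0) :
    IntegrableOn (fun w => ψ w * D w + db ψ w * G w) (V r) ∧
    (∮ z in C(c, q), ψ z * G z) - (∮ z in C(c, p), ψ z * G z) =
      I * ∫ w in V r, (ψ w * D w + db ψ w * G w) := by
  have z : ∀ w, ψ =ᶠ[𝓝 w] 0 → ψ w * D w + db ψ w * G w = 0 := fun w h => by
    simp [db, h.fderiv_eq, h.eq_of_nhds]
  have z2 : ∀ w, ψ =ᶠ[𝓝 w] 0 → (fun w => ψ w * G w) =ᶠ[𝓝 w] fun _ => 0 := fun w h =>
    h.mono fun v hv => by simp [hv]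
  have cd : Continuous (db ψ) := by
    have := hψ.continuous_fderiv one_ne_zero
    unfold db; fun_prop
  have c2 := (hψ.continuous.continuousOn.mul hD).add (cd.continuousOn.mul hG)
  refine ⟨(c2.integrableOn_compact (Kc r)).mono_set VK, ?_⟩
  rw [green c hp hq _ (fun w => ψ w * D w + db ψ w * G w) (fun w hw => ?_) (fun w hw => ?_)
    fun w b d => ?_]
  · rw [setIntegral_eq_of_subset_of_forall_sdiff_eq_zero (ms c p q) (inter_subset_left (t := V r))
      fun w hw => z w ((h2 w hw.1.1 hw.1.2).resolve_right fun k => hw.2 ⟨hw.1, k⟩),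
      setIntegral_eq_of_subset_of_ae_sdiff_eq_zero (Vo r).measurableSet.nullMeasurableSet
      inter_subset_right ?_]
    filter_upwards [(countable_singleton c).ae_notMem volume] with w hw k
    exact z w (h3 w k.1 hw fun n => k.2 ⟨n, k.1⟩)
  · rcases h1 w hw with h | h
    · exact (continuousAt_const.congr (z2 w h).symm).continuousWithinAt
    · exact ((hψ.continuous.continuousOn.mul hG) w h.1).mono_of_mem_nhdsWithin h.2
  · rcases h1 w hw with h | h
    · exact (continuousAt_const.congr (h.eventually_nhds.mono fun v hv =>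
        (z v hv).symm)).continuousWithinAt
    · exact (c2 w h.1).mono_of_mem_nhdsWithin h.2
  · have := hψ.differentiable one_ne_zero w
    rcases h2 w b d with h | h
    · exact ⟨(differentiableAt_const 0).congr_of_eventuallyEq (z2 w h), by
        rw [z w h, db, (z2 w h).fderiv_eq]; simp⟩
    · exact ⟨this.mul (hd w h).1, by rw [dbm this (hd w h).1, (hd w h).2]⟩

lemma a1 (j : Fin 2) : ‖a j‖ = 1 := by fin_cases j <;> simp [a]

lemma a3 {i j : Fin 2} (h : i ≠ j) (w : ℂ) : 2 - ‖w - a i‖ ≤ ‖w - a j‖ := by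
  have := norm_sub_le (w - a j) (w - a i)
  have e : ‖w - a j - (w - a i)‖ = 2 := by
    rw [sub_sub_sub_cancel_left]
    fin_cases i <;> fin_cases j <;> simp [a] at h ⊢ <;> norm_num
  linarith

lemma h4 : ρ < 1 / 4 := by norm_num [ρ]

lemma greenV {r : ℝ} (hr : 6 ≤ r) {G D : ℂ → ℂ} (hG : ContinuousOn G (K r))
    (hD : ContinuousOn D (K r)) (hd : ∀ w ∈ V r, DifferentiableAt ℝ G w ∧ db G w = D w) :
    (∮ z in C(0, r), G z) - ∑ j, (∮ z in C(a j, ρ), G z) = I * ∫ w in V r, D w := by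
  let b : ∀ j, ContDiffBump (a j) := fun j => ⟨1 / 4, 1 / 2, by norm_num, by norm_num⟩
  set χ : Fin 2 → ℂ → ℂ := fun j w => b j w with hχ
  have s : ∀ j, ContDiff ℝ 1 (χ j) := fun j => ofRealCLM.contDiff.comp (b j).contDiff
  have z : ∀ j w, 1 / 2 < ‖w - a j‖ → χ j =ᶠ[𝓝 w] 0 := fun j w h => by
    filter_upwards [(isOpen_lt continuous_const (g := fun w => ‖w - a j‖) (by fun_prop)).mem_nhds h]
      with v hv
    simp [hχ, (b j).zero_of_le_dist (x := v) (dist_eq_norm v _ ▸ hv.le)]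
  have o : ∀ j w, ‖w - a j‖ < 1 / 4 → χ j =ᶠ[𝓝 w] 1 := fun j w h =>
    ((b j).eventuallyEq_one_of_mem_ball (mem_ball_iff_norm.2 h)).mono fun v hv => by simp [hχ, hv]
  have := h4
  have := ρp
  have m : ∀ j w, ρ ≤ ‖w - a j‖ → ‖w - a j‖ ≤ 3 / 4 → ‖w‖ < r ∧ ∀ i, j ≠ i → ρ < ‖w - a i‖ :=
    fun j w _ h => ⟨by linarith [norm_sub_norm_le w (a j), a1 j], fun i k => by linarith [a3 k w]⟩
  have mK : ∀ j, {w | ρ ≤ ‖w - a j‖ ∧ ‖w - a j‖ ≤ 3 / 4} ⊆ K r := fun j w h =>
    ⟨(m j w h.1 h.2).1.le, fun i => by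
      by_cases k : j = i
      · exact k ▸ h.1
      · exact ((m j w h.1 h.2).2 i k).le⟩
  have P := fun j => piece hG hD hd (s j) (a j) ρp.le (q := 3 / 4) (by linarith)
    (fun w h => Or.inr ⟨mK j h, mem_of_superset self_mem_nhdsWithin (mK j)⟩)
    (fun w h k => Or.inr ⟨(m j w h.le k.le).1, fun i => by
      by_cases n : j = i
      · exact n ▸ h
      · exact (m j w h.le k.le).2 i n⟩)
    fun w h _ k => z j w (by have := not_and.1 k (h.2 j); linarith)
  have y : ∀ w, (∃ j, ‖w - a j‖ < 1 / 4) → (fun w => 1 - χ 0 w - χ 1 w) =ᶠ[𝓝 w] 0 := by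
    rintro w ⟨j, h⟩
    have n := fun i (k : j ≠ i) => z i w (by linarith [a3 k w])
    fin_cases j
    · filter_upwards [o 0 w h, n 1 (by decide)] with v h k
      simp [h, k]
    · filter_upwards [o 1 w h, n 0 (by decide)] with v h k
      simp [h, k]
  have Q := piece hG hD hd ((contDiff_const.sub (s 0)).sub (s 1)) 0 le_rfl (q := r) (by linarith)
    (fun w h => (em _).imp (y w) fun k => by
      push Not at k
      refine ⟨⟨by simpa using h.2, fun j => by linarith [k j]⟩, mem_of_superset (inter_mem_nhdsWithin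
        _ ((Vo (r + 1)).mem_nhds ⟨by have := h.2; simp at this; linarith,
        fun j => by linarith [k j]⟩)) fun v hv => ⟨by simpa using hv.1.2, fun j => (hv.2.2 j).le⟩⟩)
    (fun w _ h => (em _).imp (y w) fun k => by
      push Not at k
      exact ⟨by simpa using h, fun j => by linarith [k j]⟩)
    fun w h k n => absurd ⟨by simpa using k, by simpa using h.1⟩ n
  have e1 : ∀ j, (∮ z in C(a j, 3 / 4), χ j z * G z) = 0 := fun j => by
    rw [circleIntegral.integral_congr (by norm_num) (g := fun _ => 0) fun w hw => by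
      simp [(z j w (by rw [mem_sphere_iff_norm.1 hw]; norm_num)).eq_of_nhds]]
    simp [circleIntegral]
  have e2 : ∀ j, (∮ z in C(a j, ρ), χ j z * G z) = ∮ z in C(a j, ρ), G z := fun j =>
    circleIntegral.integral_congr ρp.le fun w hw => by
      simp [(o j w (by rw [mem_sphere_iff_norm.1 hw]; exact h4)).eq_of_nhds]
  have e3 : (∮ z in C(0, r), (1 - χ 0 z - χ 1 z) * G z) = ∮ z in C(0, r), G z :=
    circleIntegral.integral_congr (by linarith) fun w hw => by
      have := fun j => (z j w (by linarith [norm_sub_norm_le w (a j), a1 j,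
        mem_sphere_zero_iff_norm.1 hw])).eq_of_nhds
      simp [this]
  simp only [e1, e2, e3, circleIntegral.integral_radius_zero] at P Q
  have : ∫ w in V r, D w = _ := (integral_congr_ae (Eventually.of_forall fun w => ?_)).trans
    ((integral_add (Q.1.add (P 0).1) (P 1).1).trans (congrArg₂ _ (integral_add Q.1 (P 0).1) rfl))
  · rw [this, Fin.sum_univ_two]
    linear_combination Q.2 + (P 0).2 + (P 1).2
  · have d := fun j => (s j).differentiable one_ne_zero w
    simp only [Pi.add_apply, db, fderiv_fun_sub (((d 0).const_sub 1)) (d 1), fderiv_const_sub]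
    simp; ring

end Pool.Agent.H.MP_9159b8_an
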