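import Pool.Agent.H.MP_9159b8_an.E

set_option autoImplicit false
open Complex Filter Topology Set Metric MeasureTheory
open scoped Real ComplexConjugate

namespace Pool.Agent.H.MP_9159b8_an

noncomputable def c : Fin 3 → ℂ := Fin.cons 0 a
noncomputable def rr (r : ℝ) : Fin 3 → ℝ := Fin.cons r fun _ => ρ

variable {r : ℝ}

lemma r0' (hr : 6 ≤ r) (j : Fin 3) : 0 < rr r j :=
  Fin.cases (show 0 < r by linarith) (fun _ => ρp) j

lemma cl1 {O : Set ℂ} (hO : IsOpen O) {x z : ℂ} {q : ℝ} (hq : 0 < q) (h : z ∈ O)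
    (hz : z ∈ sphere x q) : z ∈ closure (O ∩ ball x q) ∧ z ∈ closure (O ∩ (closedBall x q)ᶜ) :=
  ⟨hO.inter_closure ⟨h, by rw [closure_ball _ hq.ne']; exact sphere_subset_closedBall hz⟩,
    hO.inter_closure ⟨h, by
      rw [closure_compl, interior_closedBall _ hq.ne']
      exact fun b => (mem_ball.1 b).ne hz⟩⟩

lemma far1 (hr : 6 ≤ r) {z : ℂ} (h : ‖z‖ = r) (j : Fin 2) : ρ < ‖z - a j‖ := by
  linarith [norm_sub_norm_le z (a j), a1 j, h4]

lemma far2 (hr : 6 ≤ r) {z : ℂ} {i : Fin 2} (h : ‖z - a i‖ = ρ) :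
    ‖z‖ < r ∧ ∀ j, i ≠ j → ρ < ‖z - a j‖ :=
  ⟨by linarith [norm_sub_norm_le z (a i), a1 i, h4], fun j hj => by linarith [a3 hj z, h4]⟩

lemma sK (hr : 6 ≤ r) (j : Fin 3) {z : ℂ} (hz : z ∈ sphere (c j) (rr r j)) :
    z ∈ K r ∧ z ∉ V r ∧ z ∈ closure (V r) ∧ ∀ i, z ∈ sphere (c i) (rr r i) → i = j := by
  induction j using Fin.cases with
  | zero =>
    have h : ‖z‖ = r := mem_sphere_zero_iff_norm.1 hz
    refine ⟨⟨h.le, fun j => (far1 hr h j).le⟩, fun b => b.1.ne h, closure_mono (fun w hw =>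
      And.intro (mem_ball_zero_iff.1 hw.2) hw.1.2) (cl1 (Vo (r + 1)) (r0' hr 0)
      ⟨by linarith, far1 hr h⟩ hz).1, fun i => Fin.cases (fun _ => rfl) (fun i b => ?_) i⟩
    exact absurd (mem_sphere_iff_norm.1 b) (far1 hr h i).ne'
  | succ j =>
    have h : ‖z - a j‖ = ρ := mem_sphere_iff_norm.1 hz
    have o : IsOpen {w : ℂ | ∀ i, j ≠ i → ρ < ‖w - a i‖} := by
      simp only [Set.ofPred_forall]
      exact isOpen_iInter_of_finite fun i => isOpen_iInter_of_finite fun _ =>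
        isOpen_lt continuous_const (by fun_prop)
    refine ⟨⟨(far2 hr h).1.le, fun i => ?_⟩, fun b => (b.2 j).ne' h, closure_mono (fun w hw =>
      And.intro hw.1.1 fun i => ?_) (cl1 ((isOpen_lt continuous_norm continuous_const).inter o) ρp
      (far2 hr h) hz).2, fun i => Fin.cases (fun b => ?_) (fun i b => ?_) i⟩
    · by_cases b : j = i
      · exact b ▸ h.ge
      · exact ((far2 hr h).2 i b).le
    · by_cases b : j = i
      · exact b ▸ not_le.1 fun k => hw.2 (mem_closedBall_iff_norm.2 k)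
      · exact hw.1.2 i b
    · exact absurd (mem_sphere_zero_iff_norm.1 b) (far2 hr h).1.ne
    · by_contra n
      exact ((far2 hr h).2 i fun k => n (k ▸ rfl)).ne' (mem_sphere_iff_norm.1 b)

lemma Ks {z : ℂ} (h : z ∈ K r) (n : z ∉ V r) : ∃ j, z ∈ sphere (c j) (rr r j) := by
  by_contra k
  push Not at k
  exact n ⟨h.1.lt_of_ne fun b => k 0 (mem_sphere_zero_iff_norm.2 b),
    fun j => (h.2 j).lt_of_ne' fun b => k j.succ (mem_sphere_iff_norm.2 b)⟩

lemma Vc (hr : 6 ≤ r) : IsConnected (V r) := by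
  have ar : ∀ j, |(a j).re| ≤ 1 ∧ (a j).im = 0 := fun j => by fin_cases j <;> simp [a]
  have B : ∀ {T : Set ℂ}, Convex ℝ T → IsPreconnected (T ∩ ball 0 r) := fun h =>
    (h.inter (convex_ball _ _)).isPreconnected
  have n : ∀ x z : ℝ, |x| ≤ 2 → |z| ≤ 3 → (⟨x, z⟩ : ℂ) ∈ ball (0:ℂ) r := fun x z h k =>
    mem_ball_zero_iff.2 ((norm_le_abs_re_add_abs_im _).trans_lt (by linarith))
  have q := h4
  have := ρp
  have C := (((B (convex_halfSpace_im_gt ρ)).union (⟨2, 1⟩ : ℂ)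
    (And.intro (show ρ < 1 by linarith) (n _ _ (by simp) (by simp)))
    (And.intro (show (3:ℝ) / 2 < 2 by norm_num) (n _ _ (by simp) (by simp)))
    (B (convex_halfSpace_re_gt (3 / 2)))).union (⟨2, -1⟩ : ℂ)
    (Or.inr (And.intro (show (3:ℝ) / 2 < 2 by norm_num) (n _ _ (by simp) (by simp))))
    (And.intro (show -1 < -ρ by linarith) (n _ _ (by simp) (by simp)))
    (B (convex_halfSpace_im_lt (-ρ)))).union (⟨-2, 1⟩ : ℂ)
    (Or.inl (Or.inl (And.intro (show ρ < 1 by linarith) (n _ _ (by simp) (by simp)))))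
    (And.intro (show (-2:ℝ) < -(3 / 2) by norm_num) (n _ _ (by simp) (by simp)))
    (B (convex_halfSpace_re_lt (-(3 / 2))))
  set T : Set ℂ := {z : ℂ | ρ < z.im} ∩ ball 0 r ∪ {z : ℂ | 3 / 2 < z.re} ∩ ball 0 r ∪
    {z : ℂ | z.im < -ρ} ∩ ball 0 r ∪ {z : ℂ | z.re < -(3 / 2)} ∩ ball 0 r with hT
  have TV : T ⊆ V r := by
    have i : ∀ w : ℂ, ρ < |w.im| → ∀ j, ρ < ‖w - a j‖ := fun w h j =>
      lt_of_lt_of_le (by rwa [sub_im, (ar j).2, sub_zero]) (abs_im_le_norm _)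
    have k : ∀ w : ℂ, 3 / 2 < |w.re| → ∀ j, ρ < ‖w - a j‖ := fun w h j =>
      lt_of_lt_of_le (by rw [sub_re]; linarith [abs_sub_abs_le_abs_sub w.re (a j).re, (ar j).1])
        (abs_re_le_norm _)
    rintro w (((h | h) | h) | h) <;> refine ⟨mem_ball_zero_iff.1 h.2, ?_⟩
    · exact i w (lt_abs.2 (Or.inl h.1))
    · exact k w (lt_abs.2 (Or.inl h.1))
    · exact i w (lt_abs.2 (Or.inr (lt_neg.1 h.1)))
    · exact k w (lt_abs.2 (Or.inr (lt_neg.1 h.1)))
  have x0 : (⟨2, 1⟩ : ℂ) ∈ T :=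
    Or.inl (Or.inl (Or.inl (And.intro (show ρ < 1 by linarith) (n _ _ (by simp) (by simp)))))
  refine ⟨⟨_, TV x0⟩, isPreconnected_of_forall (⟨2, 1⟩ : ℂ) fun w hw => ?_⟩
  by_cases b : w ∈ T
  · exact ⟨T, TV, x0, b, C⟩
  have w1 := mem_ball_zero_iff.2 hw.1
  simp only [hT, mem_union, mem_inter_iff, w1, and_true, mem_ofPred_eq, not_or, not_lt] at b
  have b1 : |w.re| ≤ 2 := abs_le.2 ⟨by linarith [b.2], by linarith [b.1.1.2]⟩
  have G : ∀ σ : ℝ, |σ| = 1 → 0 ≤ σ * w.im → (⟨w.re, w.im + σ * 2⟩ : ℂ) ∈ T →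
      ∃ t ⊆ V r, (⟨2, 1⟩ : ℂ) ∈ t ∧ w ∈ t ∧ IsPreconnected t := fun σ s1 s2 s3 => by
    refine ⟨T ∪ (fun t : ℝ => (⟨w.re, w.im + σ * t⟩ : ℂ)) '' Icc 0 2, union_subset TV ?_,
      Or.inl x0, Or.inr ⟨0, by simp, by simp⟩, C.union _ s3 ⟨2, by simp, rfl⟩
      (isPreconnected_Icc.image _ (Continuous.continuousOn ?_))⟩
    · rintro _ ⟨t, ht, rfl⟩
      refine ⟨mem_ball_zero_iff.1 (n _ _ b1 ((abs_add_le _ _).trans ?_)), fun j =>
        (hw.2 j).trans_le ?_⟩
      · rw [abs_mul, s1, abs_of_nonneg ht.1]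
        linarith [ht.2, abs_le.2 ⟨b.1.2, b.1.1.1⟩]
      · rw [← sq_le_sq₀ (norm_nonneg _) (norm_nonneg _), Complex.sq_norm, Complex.sq_norm,
          normSq_apply, normSq_apply]
        simp only [sub_re, sub_im, (ar j).2]
        nlinarith [mul_nonneg s2 ht.1, sq_nonneg (σ * t)]
    · simp only [mk_eq_add_mul_I]; fun_prop
  rcases le_total 0 w.im with h | h
  · exact G 1 abs_one (by linarith) (Or.inl (Or.inl (Or.inl ⟨show ρ < w.im + 1 * 2 by linarith,
      n _ _ b1 (abs_le.2 ⟨by linarith, by linarith [b.1.1.1]⟩)⟩)))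
  · exact G (-1) (by simp) (by linarith) (Or.inl (Or.inr ⟨show w.im + -1 * 2 < -ρ by linarith,
      n _ _ b1 (abs_le.2 ⟨by linarith [b.1.2], by linarith⟩)⟩))

lemma dbh {f : ℂ → ℂ} {w d : ℂ} (h : HasDerivAt f d w) : DifferentiableAt ℝ f w ∧ db f w = 0 ∧
    DifferentiableAt ℝ (fun w => conj (f w)) w ∧ db (fun w => conj (f w)) w = 2 * conj d := by
  have k := h.complexToReal_fderiv
  have l : HasFDerivAt (fun w => conj (f w)) _ w := conjCLE.hasFDerivAt.comp w k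
  refine ⟨k.differentiableAt, ?_, l.differentiableAt, ?_⟩
  · simp [db, k.fderiv]; linear_combination d * I_sq
  · simp [db, l.fderiv]; linear_combination -conj d * I_sq

lemma area (hr : 6 ≤ r) {φ R S f : ℂ → ℂ} (inj : InjOn φ (K r))
    (hK : ∀ w ∈ K r, AnalyticAt ℂ φ w ∧ HasDerivAt φ (R w ^ 2) w ∧ R w ≠ 0 ∧
      DifferentiableAt ℂ R w ∧ DifferentiableAt ℂ S w)
    (h1 : ∀ w ∈ V r, DifferentiableAt ℂ f (φ w)) (h2 : ContinuousOn (fun w => f (φ w)) (K r)) :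
    (∮ z in C(0, r), f (φ z) * R z * (R z * conj (φ z) - S z)) -
      ∑ j, (∮ z in C(a j, ρ), f (φ z) * R z * (R z * conj (φ z) - S z)) =
      2 * I * ∫ z in φ '' V r, f z := by
  have cR : ContinuousOn R (K r) := fun w hw => (hK w hw).2.2.2.1.continuousAt.continuousWithinAt
  have cS : ContinuousOn S (K r) := fun w hw => (hK w hw).2.2.2.2.continuousAt.continuousWithinAt
  have cφ : ContinuousOn φ (K r) := fun w hw => (hK w hw).1.continuousAt.continuousWithinAt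
  rw [greenV hr (G := fun z => f (φ z) * R z * (R z * conj (φ z) - S z))
    (D := fun w => 2 * (f (φ w) * (R w ^ 2 * conj (R w ^ 2)))) ((h2.mul cR).mul
    ((cR.mul (continuous_conj.comp_continuousOn cφ)).sub cS)) (continuousOn_const.mul (h2.mul
    ((cR.pow 2).mul (continuous_conj.comp_continuousOn (cR.pow 2))))) fun w hw => ?_,
    integral_const_mul, integral_image_eq_integral_abs_det_fderiv_smul volume (Vo r).measurableSet
    (fun w hw => (hK w (VK hw)).2.1.complexToReal_fderiv.hasFDerivWithinAt) (inj.mono VK),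
    ← mul_assoc, mul_comm I]
  · congr 2; ext w
    have : ∀ d : ℂ, (d • (1 : ℂ →L[ℝ] ℂ)).det = normSq d := fun d => by
      rw [← Algebra.norm_complex_apply, Algebra.norm_apply]; congr 1
    rw [this, mul_conj, abs_of_nonneg (normSq_nonneg _), real_smul, mul_comm]
  · have k := hK w (VK hw)
    have d1 := ((h1 w hw).comp w k.1.differentiableAt).mul k.2.2.2.1
    have e1 := dbh (d1.mul k.2.2.2.1).hasDerivAt
    have e2 := dbh (d1.mul k.2.2.2.2).hasDerivAt
    have e3 := dbh k.2.1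
    have e : (fun z => f (φ z) * R z * (R z * conj (φ z) - S z)) = fun z =>
        ((f ∘ φ) * R * R) z * conj (φ z) - ((f ∘ φ) * R * S) z := by ext; simp; ring
    rw [e]
    refine ⟨(e1.1.mul e3.2.2.1).sub e2.1, ?_⟩
    have := dbm e1.1 e3.2.2.1
    rw [e1.2.1, e3.2.2.2] at this
    have t := e2.2.1
    simp only [db] at this t ⊢
    rw [fderiv_fun_sub (e1.1.fun_mul e3.2.2.1) e2.1]
    simp only [_root_.sub_apply, Pi.mul_apply, Function.comp] at this t ⊢
    linear_combination this - t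

end Pool.Agent.H.MP_9159b8_an
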